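import Pool.Agent.H29.DW.Tools
import Pool.Agent.H87.HK.YC

/-!
# The hybrid Weyl bound: rotations of the angles, measurability and periodicity
-/

set_option autoImplicit false
set_option linter.unusedSectionVars false
set_option linter.unusedVariables false

open NumberField NumberField.InfinitePlace NumberField.Units
  NumberField.Units.dirichletUnitTheorem MeasureTheory Set Filter Complex
open scoped nonZeroDivisors ENNReal

namespace Pool.Agent.H16.DW

open Pool.Agent.H25.HK Pool.Agent.H23.LB Pool.Agent.H23.LC Pool.Agent.H29.DW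
open Pool.Agent.H28.RC (Rep ft idl)
open Pool.Agent.H29.TC (GK fk_le dvs)

/-! ### One place -/

theorem per_lint (G : ℝ → ℝ≥0∞) (hG : Function.Periodic G (2 * Real.pi)) (α : ℝ) :
    ∫⁻ θ in Icc (0 : ℝ) (2 * Real.pi), G (θ + α) = ∫⁻ θ in Icc (0 : ℝ) (2 * Real.pi), G θ := by
  have hT : (0 : ℝ) < 2 * Real.pi := by positivity
  rw [setLIntegral_congr (Ioc_ae_eq_Icc).symm, setLIntegral_congr (Ioc_ae_eq_Icc).symm]
  have h1 : ∫⁻ θ in Ioc (0 : ℝ) (2 * Real.pi), G (θ + α) =
      ∫⁻ θ in Ioc α (α + 2 * Real.pi), G θ := by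
    have h2 := (measurePreserving_add_right (volume : Measure ℝ) α).setLIntegral_comp_preimage_emb
      (MeasurableEquiv.addRight α).measurableEmbedding G (Ioc α (α + 2 * Real.pi))
    rw [← h2]
    congr 2
    ext x
    simp only [mem_Ioc, mem_preimage]
    constructor
    · rintro ⟨h3, h4⟩
      exact ⟨by linarith, by linarith⟩
    · rintro ⟨h3, h4⟩
      exact ⟨by linarith, by linarith⟩
  rw [h1]
  have : VAddInvariantMeasure (AddSubgroup.zmultiples (2 * Real.pi)) ℝ volume :=
    ⟨fun c s _ => measure_preimage_add _ _ _⟩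
  have h5 := (isAddFundamentalDomain_Ioc hT α).setLIntegral_eq
    (isAddFundamentalDomain_Ioc hT 0) G hG.map_vadd_zmultiples
  rw [zero_add] at h5
  exact h5

theorem two_int (a b : ℝ≥0∞) :
    ∫⁻ θ in Icc (0 : ℝ) (2 * Real.pi), (if θ < Real.pi then a else b) =
      ENNReal.ofReal Real.pi * (a + b) := by
  have hpi := Real.pi_pos
  have h1 : (fun θ : ℝ => if θ < Real.pi then a else b) = fun θ =>
      (Iio Real.pi).indicator (fun _ => a) θ + (Ici Real.pi).indicator (fun _ => b) θ := by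
    funext θ
    by_cases h : θ < Real.pi
    · rw [if_pos h, indicator_of_mem (show θ ∈ Iio Real.pi from h),
        indicator_of_notMem (show θ ∉ Ici Real.pi from not_le.2 h), add_zero]
    · rw [if_neg h, indicator_of_notMem (show θ ∉ Iio Real.pi from h),
        indicator_of_mem (show θ ∈ Ici Real.pi from not_lt.1 h), zero_add]
  rw [h1, lintegral_add_left (measurable_const.indicator measurableSet_Iio),
    lintegral_indicator measurableSet_Iio, lintegral_indicator measurableSet_Ici,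
    lintegral_const, lintegral_const, Measure.restrict_restrict measurableSet_Iio,
    Measure.restrict_restrict measurableSet_Ici, Measure.restrict_apply_univ,
    Measure.restrict_apply_univ]
  have h2 : Iio Real.pi ∩ Icc (0 : ℝ) (2 * Real.pi) = Ico 0 Real.pi := by
    ext x
    simp only [mem_inter_iff, mem_Iio, mem_Icc, mem_Ico]
    constructor
    · rintro ⟨h3, h4, h5⟩
      exact ⟨h4, h3⟩
    · rintro ⟨h3, h4⟩
      exact ⟨h4, h3, by linarith⟩
  have h3 : Ici Real.pi ∩ Icc (0 : ℝ) (2 * Real.pi) = Icc Real.pi (2 * Real.pi) := by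
    ext x
    simp only [mem_inter_iff, mem_Ici, mem_Icc]
    constructor
    · rintro ⟨h3, h4, h5⟩
      exact ⟨h3, h5⟩
    · rintro ⟨h3, h4⟩
      exact ⟨h3, by linarith, h4⟩
  rw [h2, h3, Real.volume_Ico, Real.volume_Icc, sub_zero,
    show 2 * Real.pi - Real.pi = Real.pi by ring]
  ring

theorem rot_aq (r : Bool) (c : ℂ) (hc : ‖c‖ = 1) (hr : Rl r c) (F : ℂ → ℝ≥0∞) :
    ∫⁻ θ in Icc (0 : ℝ) (2 * Real.pi), F (c * aq r θ) =
      ∫⁻ θ in Icc (0 : ℝ) (2 * Real.pi), F (aq r θ) := by
  cases r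
  · have h1 : c = cexp (c.arg * I) := by
      have := Complex.norm_mul_exp_arg_mul_I c
      rw [hc, Complex.ofReal_one, one_mul] at this
      exact this.symm
    have h2 : ∀ θ : ℝ, F (c * aq false θ) = F (cexp (((θ + c.arg : ℝ) : ℂ) * I)) := by
      intro θ
      congr 1
      unfold aq
      simp only [Bool.false_eq_true, if_false]
      conv_lhs => rw [h1]
      rw [← Complex.exp_add]
      congr 1
      push_cast
      ring
    have h3 : ∀ θ : ℝ, F (aq false θ) = F (cexp (((θ : ℝ) : ℂ) * I)) := by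
      intro θ
      unfold aq
      simp only [Bool.false_eq_true, if_false]
    simp only [h2, h3]
    refine per_lint (fun θ : ℝ => F (cexp ((θ : ℂ) * I))) (fun θ => ?_) c.arg
    simp only
    congr 1
    push_cast
    rw [add_mul]
    exact Complex.exp_periodic _
  · have h0 : c.im = 0 := hr rfl
    have h1 : c = 1 ∨ c = -1 := by
      have h2 : c = ((c.re : ℝ) : ℂ) := Complex.ext rfl (by simpa using h0)
      rw [h2, Complex.norm_real, Real.norm_eq_abs] at hc
      rcases abs_eq (zero_le_one) |>.1 hc with h3 | h3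
      · left
        rw [h2, h3, Complex.ofReal_one]
      · right
        rw [h2, h3]
        simp
    rcases h1 with rfl | rfl
    · simp only [one_mul]
    · have h2 : ∀ θ : ℝ, F (-1 * aq true θ) = if θ < Real.pi then F (-1) else F 1 := by
        intro θ
        unfold aq
        simp only [if_true]
        split_ifs <;> simp
      have h3 : ∀ θ : ℝ, F (aq true θ) = if θ < Real.pi then F 1 else F (-1) := by
        intro θ
        unfold aq
        simp only [if_true]
        split_ifs <;> rfl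
      simp only [h2, h3, two_int]
      rw [add_comm]

section NF

variable {K : Type} [Field K] [NumberField K]

open scoped Classical in
/-- the angle at one place -/
noncomputable def om1 (s : Bool) (v : InfinitePlace K) (θ : ℝ) : ℂ :=
  if s then an v θ else (starRingEnd ℂ) (an v θ)

theorem om_eq (s : Bool) (θ : InfinitePlace K → ℝ) : om s θ = fun v => om1 s v (θ v) := rfl

theorem measurable_om1 (s : Bool) (v : InfinitePlace K) : Measurable (om1 s v) := by
  have h1 : Measurable (an v) := by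
    have : an v = aq (rv v) := funext fun θ => an_eq v θ
    rw [this]
    exact measurable_aq _
  unfold om1
  cases s
  · simp only [Bool.false_eq_true, if_false]
    exact Complex.continuous_conj.measurable.comp h1
  · simp only [if_true]
    exact h1

theorem measurable_om (s : Bool) : Measurable (fun θ : InfinitePlace K → ℝ => om s θ) := by
  refine measurable_pi_lambda _ fun v => ?_
  exact (measurable_om1 s v).comp (measurable_pi_apply v)

theorem rot_om1 (s : Bool) (v : InfinitePlace K) (c : ℂ) (hc : ‖c‖ = 1) (hr : Rl (rv v) c)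
    (F : ℂ → ℝ≥0∞) :
    ∫⁻ θ in Icc (0 : ℝ) (2 * Real.pi), F (c * om1 s v θ) =
      ∫⁻ θ in Icc (0 : ℝ) (2 * Real.pi), F (om1 s v θ) := by
  cases s
  · have h1 : ∀ θ, F (c * om1 false v θ) =
        (fun w => F ((starRingEnd ℂ) w)) ((starRingEnd ℂ) c * aq (rv v) θ) := by
      intro θ
      simp only [om1, Bool.false_eq_true, if_false, map_mul, Complex.conj_conj, an_eq]
    have h2 : ∀ θ, F (om1 false v θ) = (fun w => F ((starRingEnd ℂ) w)) (aq (rv v) θ) := by
      intro θ
      simp only [om1, Bool.false_eq_true, if_false, an_eq]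
    simp only [h1, h2]
    refine rot_aq (rv v) ((starRingEnd ℂ) c) (by simpa using hc) (fun h => ?_)
      (fun w => F ((starRingEnd ℂ) w))
    rw [Complex.conj_im, hr h, neg_zero]
  · have h1 : ∀ θ, F (c * om1 true v θ) = F (c * aq (rv v) θ) := by
      intro θ
      simp only [om1, if_true, an_eq]
    have h2 : ∀ θ, F (om1 true v θ) = F (aq (rv v) θ) := by
      intro θ
      simp only [om1, if_true, an_eq]
    simp only [h1, h2]
    exact rot_aq (rv v) c hc hr F

open scoped Classical in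
theorem restrict_An : (volume : Measure (InfinitePlace K → ℝ)).restrict (An K) =
    Measure.pi (fun _ : InfinitePlace K =>
      (volume : Measure ℝ).restrict (Icc (0 : ℝ) (2 * Real.pi))) := by
  unfold An
  rw [volume_pi]
  exact Measure.restrict_pi_pi _ _

open scoped Classical in
/-- rotations of the angles -/
theorem rot (s : Bool) (c : InfinitePlace K → ℂ) (hc : ∀ v, ‖c v‖ = 1)
    (hr : ∀ v, Rl (rv v) (c v)) (Φ : (InfinitePlace K → ℂ) → ℝ≥0∞) (hΦ : Measurable Φ) :
    ∫⁻ θ in An K, Φ (fun v => c v * om s θ v) = ∫⁻ θ in An K, Φ (om s θ) := by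
  set μ : Measure ℝ := (volume : Measure ℝ).restrict (Icc (0 : ℝ) (2 * Real.pi)) with hμ
  have hfin : IsFiniteMeasure μ := by
    constructor
    rw [hμ, Measure.restrict_apply_univ]
    exact measure_Icc_lt_top
  have hm1 : ∀ v : InfinitePlace K, Measurable (om1 s v) := measurable_om1 s
  have hm2 : ∀ v : InfinitePlace K, Measurable (fun θ => c v * om1 s v θ) := fun v =>
    (hm1 v).const_mul _
  have hloc : ∀ v : InfinitePlace K, μ.map (fun θ => c v * om1 s v θ) = μ.map (om1 s v) := by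
    intro v
    ext S hS
    rw [Measure.map_apply (hm2 v) hS, Measure.map_apply (hm1 v) hS,
      ← lintegral_indicator_one ((hm2 v) hS), ← lintegral_indicator_one ((hm1 v) hS)]
    exact rot_om1 s v (c v) (hc v) (hr v) (S.indicator 1)
  have e1 : (Measure.pi (fun _ : InfinitePlace K => μ)).map
      (fun θ v => c v * om1 s v (θ v)) = Measure.pi (fun v => μ.map (fun θ => c v * om1 s v θ)) :=
    Measure.pi_map_pi (fun v => (hm2 v).aemeasurable)
  have e2 : (Measure.pi (fun _ : InfinitePlace K => μ)).map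
      (fun θ v => om1 s v (θ v)) = Measure.pi (fun v => μ.map (om1 s v)) :=
    Measure.pi_map_pi (fun v => (hm1 v).aemeasurable)
  rw [restrict_An, ← hμ]
  have f1 : ∫⁻ θ, Φ (fun v => c v * om s θ v) ∂(Measure.pi (fun _ : InfinitePlace K => μ)) =
      ∫⁻ ω, Φ ω ∂((Measure.pi (fun _ : InfinitePlace K => μ)).map
        (fun θ v => c v * om1 s v (θ v))) := by
    rw [lintegral_map hΦ]
    · rfl
    · exact measurable_pi_lambda _ fun v => (hm2 v).comp (measurable_pi_apply v)
  have f2 : ∫⁻ θ, Φ (om s θ) ∂(Measure.pi (fun _ : InfinitePlace K => μ)) =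
      ∫⁻ ω, Φ ω ∂((Measure.pi (fun _ : InfinitePlace K => μ)).map
        (fun θ v => om1 s v (θ v))) := by
    rw [lintegral_map hΦ]
    · rfl
    · exact measurable_pi_lambda _ fun v => (hm1 v).comp (measurable_pi_apply v)
  rw [f1, f2, e1, e2]
  simp only [hloc]

/-! ### Measurability -/

theorem cnt_K : Countable K :=
  (Module.finBasis ℚ K).equivFun.toEquiv.countable_iff.2 inferInstance

theorem measurable_wv (v : InfinitePlace K) (x : K) :
    Measurable (fun q : (InfinitePlace K → ℝ) × (InfinitePlace K → ℂ) => wv v x q.1 q.2) := by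
  unfold wv
  have h1 : Measurable (fun q : (InfinitePlace K → ℝ) × (InfinitePlace K → ℂ) => q.1 v) :=
    (measurable_pi_apply v).comp measurable_fst
  have h2 : Measurable (fun q : (InfinitePlace K → ℝ) × (InfinitePlace K → ℂ) => q.2 v) :=
    (measurable_pi_apply v).comp measurable_snd
  have h3 : Measurable (fun q : (InfinitePlace K → ℝ) × (InfinitePlace K → ℂ) =>
      ((Real.exp (q.1 v / 2) : ℝ) : ℂ)) :=
    Complex.measurable_ofReal.comp (h1.div_const 2).exp
  exact (h3.const_mul _).mul h2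

theorem measurable_amb (r : Bool) (A : ℕ) (c : ℂ) (H : ℝ) :
    Measurable (fun q : ℂ × ℂ => amb r A c H q.1 q.2) := by
  classical
  unfold amb
  refine Measurable.ite ?_ ?_ measurable_const
  · exact measurableSet_le (measurable_fst.norm.const_mul _) measurable_const
  · have h1 : Measurable (fun q : ℂ × ℂ =>
        1 + ‖q.2 - c * q.1 / (2 * Real.pi * dg r)‖ / H) := by
      exact (((measurable_snd.sub ((measurable_fst.const_mul c).div_const _)).norm.div_const
        H).const_add 1)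
    exact h1.pow_const _

theorem measurable_Amb (A : ℕ) (cp : InfinitePlace K → ℂ) (H : InfinitePlace K → ℝ)
    (h y' : K) : Measurable (fun q : (InfinitePlace K → ℝ) × (InfinitePlace K → ℂ) =>
      Amb A cp H h y' q.1 q.2) := by
  unfold Amb
  refine Finset.measurable_prod _ fun v _ => ?_
  have h1 := measurable_wv v h
  have h2 : Measurable (fun q : (InfinitePlace K → ℝ) × (InfinitePlace K → ℂ) =>
      wv v y' (-q.1) (fun v => (starRingEnd ℂ) (q.2 v))) := by
    have h3 : Measurable (fun q : (InfinitePlace K → ℝ) × (InfinitePlace K → ℂ) =>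
        ((-q.1, fun v => (starRingEnd ℂ) (q.2 v)) :
          (InfinitePlace K → ℝ) × (InfinitePlace K → ℂ))) := by
      refine measurable_fst.neg.prodMk (measurable_pi_lambda _ fun v => ?_)
      exact Complex.continuous_conj.measurable.comp
        ((measurable_pi_apply v).comp measurable_snd)
    exact (measurable_wv v y').comp h3
  exact (measurable_amb (rv v) A (cp v) (H v)).comp (h1.prodMk h2)

/-- the sum over the pairs -/
noncomputable def PS (L₁ L₂ : FI K) (A : ℕ) (cp : InfinitePlace K → ℂ)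
    (H : InfinitePlace K → ℝ) (y : InfinitePlace K → ℝ) (ω : InfinitePlace K → ℂ) : ℝ≥0∞ :=
  ∑' h : {h : K // h ∈ L₁ ∧ h ≠ 0}, ∑' y' : {y' : K // y' ∈ L₂},
    ENNReal.ofReal (Amb A cp H h y' y ω)

/-- the diagonal -/
noncomputable def DS (M : FI K) (cp : InfinitePlace K → ℂ) (H : InfinitePlace K → ℝ)
    (p : InfinitePlace K → ℂ → ℂ) (y : InfinitePlace K → ℝ) (ω : InfinitePlace K → ℂ) : ℝ≥0∞ :=
  ∑' x : {x : K // x ∈ M}, ENNReal.ofReal (‖Wg cp H p x y ω‖ ^ 2)

theorem measurable_PS (L₁ L₂ : FI K) (A : ℕ) (cp : InfinitePlace K → ℂ)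
    (H : InfinitePlace K → ℝ) :
    Measurable (fun q : (InfinitePlace K → ℝ) × (InfinitePlace K → ℂ) =>
      PS L₁ L₂ A cp H q.1 q.2) := by
  have : Countable K := cnt_K
  unfold PS
  refine Measurable.tsum fun h => ?_
  refine Measurable.tsum fun y' => ?_
  exact (measurable_Amb A cp H h y').ennreal_ofReal

theorem measurable_DS (M : FI K) (cp : InfinitePlace K → ℂ) (H : InfinitePlace K → ℝ)
    (p : InfinitePlace K → ℂ → ℂ) (hp : ∀ v, Measurable (p v)) :
    Measurable (fun q : (InfinitePlace K → ℝ) × (InfinitePlace K → ℂ) =>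
      DS M cp H p q.1 q.2) := by
  have : Countable K := cnt_K
  unfold DS
  refine Measurable.tsum fun x => ?_
  refine Measurable.ennreal_ofReal (Measurable.pow_const (Measurable.norm ?_) 2)
  unfold Wg
  refine Finset.measurable_prod _ fun v _ => ?_
  have h1 : Measurable (tw1 (cp v) (H v) (p v)) := by
    unfold tw1 chp
    refine Measurable.mul ?_ ((hp v).comp ((measurable_id.sub_const 1).const_mul _))
    have : Continuous (fun w : ℂ => cexp (-((cp v * ((w - 1) - (w - 1) ^ 2 / 2)).re : ℝ) * I)) := by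
      fun_prop
    exact this.measurable
  exact h1.comp (measurable_wv v x)

theorem continuous_yM (M : FI K) : Continuous (fun p : logSpace K × ℝ => yM K M p.2 p.1) := by
  have h := (Pool.Agent.H87.HK.yc_main K).2.2.2.2.1
  have h2 : Continuous (fun p : logSpace K × ℝ =>
      ((p.2 - Real.log (FractionalIdeal.absNorm M : ℝ), p.1) : ℝ × logSpace K)) := by
    fun_prop
  exact h.comp h2

theorem measurable_pos (M : FI K) (s : Bool) :
    Measurable (fun p : (logSpace K × ℝ) × (InfinitePlace K → ℝ) =>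
      ((yM K M p.1.2 p.1.1, om s p.2) : (InfinitePlace K → ℝ) × (InfinitePlace K → ℂ))) :=
  ((continuous_yM M).measurable.comp measurable_fst).prodMk
    ((measurable_om s).comp measurable_snd)

theorem amb_meas (L₁ L₂ M : FI K) (A : ℕ) (cp : InfinitePlace K → ℂ)
    (H : InfinitePlace K → ℝ) (s : Bool) :
    Measurable (fun p : (logSpace K × ℝ) × (InfinitePlace K → ℝ) =>
      PS L₁ L₂ A cp H (yM K M p.1.2 p.1.1) (om s p.2)) := by
  have h1 := measurable_PS L₁ L₂ A cp H
  have h2 := measurable_pos M s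
  have h3 := h1.comp h2
  exact h3

theorem wg_meas (M : FI K) (cp : InfinitePlace K → ℂ) (H : InfinitePlace K → ℝ)
    (p : InfinitePlace K → ℂ → ℂ) (hp : ∀ v, Measurable (p v)) (s : Bool) :
    Measurable (fun q : (logSpace K × ℝ) × (InfinitePlace K → ℝ) =>
      DS M cp H p (yM K M q.1.2 q.1.1) (om s q.2)) := by
  have h1 := measurable_DS M cp H p hp
  have h2 := measurable_pos M s
  have h3 := h1.comp h2
  exact h3

/-! ### Periodicity -/

theorem u_ne (u : (𝓞 K)ˣ) : (u : K) ≠ 0 := by simp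

theorem u_mem (M : FI K) (u : (𝓞 K)ˣ) {x : K} (hx : x ∈ M) : (u : K) * x ∈ M := by
  have h : ((u : 𝓞 K) • x : K) ∈ (M : Submodule (𝓞 K) K) := Submodule.smul_mem _ _ hx
  rw [Algebra.smul_def] at h
  exact h

theorem u_inv_mul (u : (𝓞 K)ˣ) (x : K) : ((u⁻¹ : (𝓞 K)ˣ) : K) * ((u : K) * x) = x := by
  rw [← mul_assoc]
  have h : ((u⁻¹ : (𝓞 K)ˣ) : K) * (u : K) = 1 := by
    rw [← map_mul, ← Units.val_mul, inv_mul_cancel, Units.val_one, map_one]
  rw [h, one_mul]

theorem u_mul_inv (u : (𝓞 K)ˣ) (x : K) : (u : K) * (((u⁻¹ : (𝓞 K)ˣ) : K) * x) = x := by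
  have h := u_inv_mul u⁻¹ x
  rwa [inv_inv] at h

/-- multiplication with a unit -/
def eU (M : FI K) (u : (𝓞 K)ˣ) : {x : K // x ∈ M} ≃ {x : K // x ∈ M} where
  toFun x := ⟨(u : K) * x.1, u_mem M u x.2⟩
  invFun x := ⟨((u⁻¹ : (𝓞 K)ˣ) : K) * x.1, u_mem M u⁻¹ x.2⟩
  left_inv x := Subtype.ext (u_inv_mul u x.1)
  right_inv x := Subtype.ext (u_mul_inv u x.1)

/-- multiplication with a unit -/
def eU0 (M : FI K) (u : (𝓞 K)ˣ) : {x : K // x ∈ M ∧ x ≠ 0} ≃ {x : K // x ∈ M ∧ x ≠ 0} where
  toFun x := ⟨(u : K) * x.1, u_mem M u x.2.1, mul_ne_zero (u_ne u) x.2.2⟩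
  invFun x := ⟨((u⁻¹ : (𝓞 K)ˣ) : K) * x.1, u_mem M u⁻¹ x.2.1, mul_ne_zero (u_ne u⁻¹) x.2.2⟩
  left_inv x := Subtype.ext (u_inv_mul u x.1)
  right_inv x := Subtype.ext (u_mul_inv u x.1)

/-- the rotation of the angles -/
noncomputable def cu (u : (𝓞 K)ˣ) (v : InfinitePlace K) : ℂ :=
  ((v (u : K) : ℝ) : ℂ) / v.embedding (u : K)

theorem vu_pos (u : (𝓞 K)ˣ) (v : InfinitePlace K) : 0 < v (u : K) :=
  InfinitePlace.pos_iff.2 (u_ne u)

theorem emb_ne (u : (𝓞 K)ˣ) (v : InfinitePlace K) : v.embedding (u : K) ≠ 0 := by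
  rw [Ne, map_eq_zero]
  exact u_ne u

theorem norm_cu (u : (𝓞 K)ˣ) (v : InfinitePlace K) : ‖cu u v‖ = 1 := by
  unfold cu
  rw [norm_div, InfinitePlace.norm_embedding_eq, Complex.norm_real, Real.norm_eq_abs,
    abs_of_pos (vu_pos u v), div_self (vu_pos u v).ne']

theorem emb_real (v : InfinitePlace K) (hv : v.IsReal) (x : K) : (v.embedding x).im = 0 := by
  have h3 := InfinitePlace.isReal_iff.1 hv
  have h4 : (starRingEnd ℂ) (v.embedding x) = v.embedding x := by
    have := ComplexEmbedding.isReal_iff.1 h3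
    conv_rhs => rw [← this]
    rfl
  exact Complex.conj_eq_iff_im.1 h4

theorem Rl_cu (u : (𝓞 K)ˣ) (v : InfinitePlace K) : Rl (rv v) (cu u v) := by
  intro hv
  have h1 : v.IsReal := (rv_iff v).1 hv
  have h2 := emb_real v h1 (u : K)
  have h3 : v.embedding (u : K) = (((v.embedding (u : K)).re : ℝ) : ℂ) :=
    Complex.ext rfl (by simpa using h2)
  unfold cu
  rw [h3, ← Complex.ofReal_div]
  exact Complex.ofReal_im _

theorem wv_unit (v : InfinitePlace K) (x : K) (y Y : InfinitePlace K → ℝ)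
    (ω : InfinitePlace K → ℂ) (u : (𝓞 K)ˣ)
    (hY : ∀ v, Y v = y v + 2 * Real.log (v (u : K))) :
    wv v x Y ω = wv v ((u : K) * x) y (fun v => cu u v * ω v) := by
  have h1 := vu_pos u v
  have h2 := emb_ne u v
  unfold wv cu
  rw [hY v, map_mul, show (y v + 2 * Real.log (v (u : K))) / 2 =
    y v / 2 + Real.log (v (u : K)) by ring, Real.exp_add, Real.exp_log h1]
  push_cast
  field_simp

theorem wv_unit' (v : InfinitePlace K) (x : K) (y Y : InfinitePlace K → ℝ)
    (ω : InfinitePlace K → ℂ) (u : (𝓞 K)ˣ)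
    (hY : ∀ v, Y v = y v + 2 * Real.log (v (u : K))) :
    wv v x (-Y) (fun v => (starRingEnd ℂ) (ω v)) =
      wv v (((u⁻¹ : (𝓞 K)ˣ) : K) * x) (-y)
        (fun v => (starRingEnd ℂ) (cu u v * ω v)) := by
  have h1 := vu_pos u v
  have h2 := emb_ne u v
  have h5 : v.embedding (u : K) * v.embedding ((u⁻¹ : (𝓞 K)ˣ) : K) = 1 := by
    rw [← map_mul, ← map_mul, ← Units.val_mul, mul_inv_cancel, Units.val_one, map_one, map_one]
  have h6 : v.embedding ((u⁻¹ : (𝓞 K)ˣ) : K) = (v.embedding (u : K))⁻¹ := by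
    exact eq_inv_of_mul_eq_one_right h5
  have h7 : v.embedding (u : K) * (starRingEnd ℂ) (v.embedding (u : K)) =
      (((v (u : K)) ^ 2 : ℝ) : ℂ) := by
    rw [Complex.mul_conj, Complex.normSq_eq_norm_sq, InfinitePlace.norm_embedding_eq]
  have h8 : (starRingEnd ℂ) (v.embedding (u : K)) ≠ 0 := by
    rw [Ne, map_eq_zero]
    exact h2
  unfold wv cu
  simp only
  rw [Pi.neg_apply, Pi.neg_apply, hY v, map_mul, h6, map_mul, map_div₀, Complex.conj_ofReal,
    show -(y v + 2 * Real.log (v (u : K))) / 2 =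
    -y v / 2 + -Real.log (v (u : K)) by ring, Real.exp_add, Real.exp_neg (Real.log _),
    Real.exp_log h1]
  have h9 : ((v (u : K) : ℝ) : ℂ) ≠ 0 := by
    exact_mod_cast h1.ne'
  push_cast at h7 ⊢
  field_simp
  linear_combination ((v.embedding x) * (starRingEnd ℂ) (ω v)) * h7

theorem Amb_unit (A : ℕ) (cp : InfinitePlace K → ℂ) (H : InfinitePlace K → ℝ) (h y' : K)
    (y Y : InfinitePlace K → ℝ) (ω : InfinitePlace K → ℂ) (u : (𝓞 K)ˣ)
    (hY : ∀ v, Y v = y v + 2 * Real.log (v (u : K))) :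
    Amb A cp H h y' Y ω = Amb A cp H ((u : K) * h) (((u⁻¹ : (𝓞 K)ˣ) : K) * y') y
      (fun v => cu u v * ω v) := by
  unfold Amb
  refine Finset.prod_congr rfl fun v _ => ?_
  rw [wv_unit v h y Y ω u hY, wv_unit' v y' y Y ω u hY]

theorem Wg_unit (cp : InfinitePlace K → ℂ) (H : InfinitePlace K → ℝ)
    (p : InfinitePlace K → ℂ → ℂ) (x : K) (y Y : InfinitePlace K → ℝ)
    (ω : InfinitePlace K → ℂ) (u : (𝓞 K)ˣ)
    (hY : ∀ v, Y v = y v + 2 * Real.log (v (u : K))) :
    Wg cp H p x Y ω = Wg cp H p ((u : K) * x) y (fun v => cu u v * ω v) := by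
  unfold Wg
  refine Finset.prod_congr rfl fun v _ => ?_
  rw [wv_unit v x y Y ω u hY]

theorem PS_unit (L₁ L₂ : FI K) (A : ℕ) (cp : InfinitePlace K → ℂ)
    (H : InfinitePlace K → ℝ) (y Y : InfinitePlace K → ℝ) (ω : InfinitePlace K → ℂ)
    (u : (𝓞 K)ˣ) (hY : ∀ v, Y v = y v + 2 * Real.log (v (u : K))) :
    PS L₁ L₂ A cp H Y ω = PS L₁ L₂ A cp H y (fun v => cu u v * ω v) := by
  unfold PS
  rw [← (eU0 L₁ u).tsum_eq (fun h : {h : K // h ∈ L₁ ∧ h ≠ 0} =>
    ∑' y' : {y' : K // y' ∈ L₂}, ENNReal.ofReal (Amb A cp H h y' y (fun v => cu u v * ω v)))]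
  refine tsum_congr fun h => ?_
  rw [← (eU L₂ u⁻¹).tsum_eq (fun y' : {y' : K // y' ∈ L₂} =>
    ENNReal.ofReal (Amb A cp H ((eU0 L₁ u) h) y' y (fun v => cu u v * ω v)))]
  refine tsum_congr fun y' => ?_
  rw [Amb_unit A cp H h y' y Y ω u hY]
  rfl

theorem DS_unit (M : FI K) (cp : InfinitePlace K → ℂ) (H : InfinitePlace K → ℝ)
    (p : InfinitePlace K → ℂ → ℂ) (y Y : InfinitePlace K → ℝ) (ω : InfinitePlace K → ℂ)
    (u : (𝓞 K)ˣ) (hY : ∀ v, Y v = y v + 2 * Real.log (v (u : K))) :
    DS M cp H p Y ω = DS M cp H p y (fun v => cu u v * ω v) := by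
  unfold DS
  rw [← (eU M u).tsum_eq (fun x : {x : K // x ∈ M} =>
    ENNReal.ofReal (‖Wg cp H p x y (fun v => cu u v * ω v)‖ ^ 2))]
  refine tsum_congr fun x => ?_
  rw [Wg_unit cp H p x y Y ω u hY]
  rfl

theorem yM_unit (M : FI K) (τ : ℝ) (z : logSpace K) (u : (𝓞 K)ˣ) (v : InfinitePlace K) :
    yM K M τ (z + logEmbedding K (Additive.ofMul u)) v = yM K M τ z v + 2 * Real.log (v (u : K)) :=
  (Pool.Agent.H87.HK.yc_main K).2.2.1 _ z u v

open scoped Classical in
/-- the average over the angles of the sum over the pairs is invariant under the units -/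
theorem amb_per (L₁ L₂ M : FI K) (A : ℕ) (cp : InfinitePlace K → ℂ)
    (H : InfinitePlace K → ℝ) (s : Bool) (z : logSpace K) (τ : ℝ) (l : logSpace K)
    (hl : l ∈ unitLattice K) :
    ∫⁻ θ in An K, PS L₁ L₂ A cp H (yM K M τ (z + l)) (om s θ) =
      ∫⁻ θ in An K, PS L₁ L₂ A cp H (yM K M τ z) (om s θ) := by
  obtain ⟨u, hu⟩ : ∃ u : (𝓞 K)ˣ, logEmbedding K (Additive.ofMul u) = l := by
    obtain ⟨w, _, hw⟩ := hl
    exact ⟨w.toMul, hw⟩
  have hm : Measurable (fun ω : InfinitePlace K → ℂ => PS L₁ L₂ A cp H (yM K M τ z) ω) := by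
    have h2 : Measurable (fun ω : InfinitePlace K → ℂ =>
      ((yM K M τ z, ω) : (InfinitePlace K → ℝ) × (InfinitePlace K → ℂ))) :=
      measurable_const.prodMk measurable_id
    have h3 := (measurable_PS L₁ L₂ A cp H).comp h2
    exact h3
  have h1 := rot s (cu u) (norm_cu u) (Rl_cu u) _ hm
  rw [← h1]
  refine lintegral_congr fun θ => ?_
  have hY : ∀ v, yM K M τ (z + l) v = yM K M τ z v + 2 * Real.log (v (u : K)) := by
    intro v
    rw [← hu]
    exact yM_unit M τ z u v
  exact PS_unit L₁ L₂ A cp H (yM K M τ z) (yM K M τ (z + l)) (om s θ) u hY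

open scoped Classical in
/-- the average over the angles of the diagonal is invariant under the units -/
theorem wg_per (M : FI K) (cp : InfinitePlace K → ℂ) (H : InfinitePlace K → ℝ)
    (p : InfinitePlace K → ℂ → ℂ) (hp : ∀ v, Measurable (p v)) (s : Bool) (z : logSpace K)
    (τ : ℝ) (l : logSpace K) (hl : l ∈ unitLattice K) :
    ∫⁻ θ in An K, DS M cp H p (yM K M τ (z + l)) (om s θ) =
      ∫⁻ θ in An K, DS M cp H p (yM K M τ z) (om s θ) := by
  obtain ⟨u, hu⟩ : ∃ u : (𝓞 K)ˣ, logEmbedding K (Additive.ofMul u) = l := by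
    obtain ⟨w, _, hw⟩ := hl
    exact ⟨w.toMul, hw⟩
  have hm : Measurable (fun ω : InfinitePlace K → ℂ => DS M cp H p (yM K M τ z) ω) := by
    have h2 : Measurable (fun ω : InfinitePlace K → ℂ =>
      ((yM K M τ z, ω) : (InfinitePlace K → ℝ) × (InfinitePlace K → ℂ))) :=
      measurable_const.prodMk measurable_id
    have h3 := (measurable_DS M cp H p hp).comp h2
    exact h3
  have h1 := rot s (cu u) (norm_cu u) (Rl_cu u) _ hm
  rw [← h1]
  refine lintegral_congr fun θ => ?_
  have hY : ∀ v, yM K M τ (z + l) v = yM K M τ z v + 2 * Real.log (v (u : K)) := by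
    intro v
    rw [← hu]
    exact yM_unit M τ z u v
  exact DS_unit M cp H p (yM K M τ z) (yM K M τ (z + l)) (om s θ) u hY

open scoped Classical in
theorem amb_meas2 (L₁ L₂ M : FI K) (A : ℕ) (cp : InfinitePlace K → ℂ)
    (H : InfinitePlace K → ℝ) (s : Bool) :
    Measurable (fun p : logSpace K × ℝ =>
      ∫⁻ θ in An K, PS L₁ L₂ A cp H (yM K M p.2 p.1) (om s θ)) := by
  have h := (amb_meas L₁ L₂ M A cp H s).lintegral_prod_right'
    (ν := (volume : Measure (InfinitePlace K → ℝ)).restrict (An K))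
  exact h

open scoped Classical in
theorem wg_meas2 (M : FI K) (cp : InfinitePlace K → ℂ) (H : InfinitePlace K → ℝ)
    (p : InfinitePlace K → ℂ → ℂ) (hp : ∀ v, Measurable (p v)) (s : Bool) :
    Measurable (fun q : logSpace K × ℝ =>
      ∫⁻ θ in An K, DS M cp H p (yM K M q.2 q.1) (om s θ)) := by
  have h := (wg_meas M cp H p hp s).lintegral_prod_right'
    (ν := (volume : Measure (InfinitePlace K → ℝ)).restrict (An K))
  exact h

end NF

end Pool.Agent.H16.DW
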