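import Mathlib

/-!
# The hybrid Weyl bound: the mean square for a system of representatives, real inequalities
-/

set_option autoImplicit false

namespace Pool.Agent.H16.DW

open Real

theorem rpow_pow_kappa {n : ℕ} {κ : ℝ} (hκ : 0 < κ) (hκn : κ * n ≤ 1) (b : ℝ) (hb : 1 ≤ b)
    (j : ℕ) : ((b ^ (j * n) : ℝ)) ^ κ ≤ b ^ j := by
  rw [← Real.rpow_natCast b (j * n), ← Real.rpow_mul (by linarith), ← Real.rpow_natCast b j]
  refine Real.rpow_le_rpow_of_exponent_le hb ?_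
  push_cast
  have hj : (0 : ℝ) ≤ j := Nat.cast_nonneg j
  nlinarith

/-- the geometric factor -/
theorem geo_eq (n j : ℕ) : (2 : ℝ) ^ (-(((2 * n + 4) * j : ℕ) : ℝ)) * ((2 : ℝ) ^ (j * n)) ^ 2 *
    4 ^ j = (1 / 4) ^ j := by
  rw [Real.rpow_neg (by norm_num), Real.rpow_natCast]
  have h1 : (2 : ℝ) ^ ((2 * n + 4) * j) = ((2 : ℝ) ^ (j * n)) ^ 2 * 4 ^ j * 4 ^ j := by
    have h4 : (4 : ℝ) = 2 ^ 2 := by norm_num
    rw [h4, ← pow_mul, ← pow_mul, ← pow_add, ← pow_add]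
    congr 1
    ring
  rw [h1, one_div, inv_pow]
  have h2 : (0 : ℝ) < ((2 : ℝ) ^ (j * n)) ^ 2 := by positivity
  have h3 : (0 : ℝ) < (4 : ℝ) ^ j := by positivity
  field_simp

theorem geo_le (n j : ℕ) (hn : 0 < n) : (2 : ℝ) ^ (-(((2 * n + 4) * j : ℕ) : ℝ)) *
    (2 : ℝ) ^ (j * n) * 2 ^ j ≤ (1 / 4) ^ j := by
  rw [← geo_eq n j]
  have h1 : (0 : ℝ) ≤ (2 : ℝ) ^ (-(((2 * n + 4) * j : ℕ) : ℝ)) := by positivity
  have h2 : (1 : ℝ) ≤ (2 : ℝ) ^ (j * n) := one_le_pow₀ (by norm_num)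
  have h3 : (2 : ℝ) ^ j ≤ 4 ^ j := pow_le_pow_left₀ (by norm_num) (by norm_num) j
  have h4 : (2 : ℝ) ^ (j * n) ≤ ((2 : ℝ) ^ (j * n)) ^ 2 := by nlinarith
  have h5 : (0 : ℝ) ≤ (2 : ℝ) ^ j := by positivity
  calc (2 : ℝ) ^ (-(((2 * n + 4) * j : ℕ) : ℝ)) * (2 : ℝ) ^ (j * n) * 2 ^ j ≤
      (2 : ℝ) ^ (-(((2 * n + 4) * j : ℕ) : ℝ)) * ((2 : ℝ) ^ (j * n)) ^ 2 * 2 ^ j :=
        mul_le_mul_of_nonneg_right (mul_le_mul_of_nonneg_left h4 h1) h5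
    _ ≤ _ := mul_le_mul_of_nonneg_left h3 (by positivity)

theorem disc_pow {d κ : ℝ} (hd : 1 ≤ d) : d ^ ((1 + κ) / 2) = √d * d ^ (κ / 2) := by
  rw [Real.sqrt_eq_rpow, ← Real.rpow_add (by linarith)]
  congr 1
  ring

/-- (a): the ratio of the volumes -/
theorem rho_le {n : ℕ} (hn : 0 < n) {κ : ℝ} (hκ : 0 < κ) (hκn : κ * n ≤ 1)
    {sd nj ne nk h P : ℝ} (j : ℕ) (hsd : 1 ≤ sd) (hnj : 1 ≤ nj) (hne : 1 ≤ ne) (hnk : 1 ≤ nk)
    (hen : ne ≤ nk) (hh : 1 ≤ h) (hP : 1 ≤ P) (hP2 : P ≤ 4 ^ n * h) :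
    (((P * 2 ^ (j * n) / h ^ 2) / (sd * (nj * ne))) /
        ((P * 2 ^ (j * n) * h)⁻¹ / (sd * nk ^ 2)) +
      ((P * 2 ^ (j * n) * h)⁻¹ / (sd * nk ^ 2)) /
        ((P * 2 ^ (j * n) / h ^ 2) / (sd * (nj * ne)))) ^ κ ≤
      32 * 4 ^ j * (h * nj * nk) ^ (2 * κ) := by
  set N : ℝ := 2 ^ (j * n) with hN
  have hN1 : 1 ≤ N := one_le_pow₀ (by norm_num)
  have e1 : ((P * N / h ^ 2) / (sd * (nj * ne))) / ((P * N * h)⁻¹ / (sd * nk ^ 2)) =
      P ^ 2 * N ^ 2 * nk ^ 2 / (h * nj * ne) := by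
    field_simp
  have e2 : ((P * N * h)⁻¹ / (sd * nk ^ 2)) / ((P * N / h ^ 2) / (sd * (nj * ne))) =
      h * nj * ne / (P ^ 2 * N ^ 2 * nk ^ 2) := by
    field_simp
  have hN0 : 0 < N := by linarith
  have h16 : (1 : ℝ) ≤ 16 ^ n := one_le_pow₀ (by norm_num)
  have b1 : P ^ 2 * N ^ 2 * nk ^ 2 / (h * nj * ne) ≤ 16 ^ n * (N ^ 2 * (h * nj * nk ^ 2)) := by
    rw [div_le_iff₀ (by positivity)]
    have c1 : P ^ 2 ≤ 16 ^ n * h ^ 2 := by
      have : P ^ 2 ≤ (4 ^ n * h) ^ 2 := pow_le_pow_left₀ (by linarith) hP2 2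
      refine this.trans (le_of_eq ?_)
      rw [mul_pow, ← pow_mul, mul_comm n 2, pow_mul]
      norm_num
    have c2 : 16 ^ n * (N ^ 2 * (h * nj * nk ^ 2)) * (h * nj * ne) =
        (16 ^ n * h ^ 2) * N ^ 2 * nk ^ 2 * (nj ^ 2 * ne) := by ring
    rw [c2]
    have c3 : 1 ≤ nj ^ 2 * ne := by nlinarith
    have c4 : P ^ 2 * N ^ 2 * nk ^ 2 ≤ (16 ^ n * h ^ 2) * N ^ 2 * nk ^ 2 :=
      mul_le_mul_of_nonneg_right (mul_le_mul_of_nonneg_right c1 (by positivity)) (by positivity)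
    calc P ^ 2 * N ^ 2 * nk ^ 2 ≤ (16 ^ n * h ^ 2) * N ^ 2 * nk ^ 2 := c4
      _ ≤ _ := le_mul_of_one_le_right (by positivity) c3
  have b2 : h * nj * ne / (P ^ 2 * N ^ 2 * nk ^ 2) ≤ 16 ^ n * (N ^ 2 * (h * nj * nk ^ 2)) := by
    have c1 : 1 ≤ P ^ 2 * N ^ 2 * nk ^ 2 := by
      have := one_le_pow₀ hP (n := 2)
      have := one_le_pow₀ hN1 (n := 2)
      have := one_le_pow₀ hnk (n := 2)
      exact one_le_mul_of_one_le_of_one_le (one_le_mul_of_one_le_of_one_le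
        (by assumption) (by assumption)) (by assumption)
    refine (div_le_self (by positivity) c1).trans ?_
    have c2 : ne ≤ nk ^ 2 := by nlinarith
    have c3 : h * nj * ne ≤ h * nj * nk ^ 2 := mul_le_mul_of_nonneg_left c2 (by positivity)
    have c4 : 1 ≤ 16 ^ n * N ^ 2 := one_le_mul_of_one_le_of_one_le h16 (one_le_pow₀ hN1)
    calc h * nj * ne ≤ h * nj * nk ^ 2 := c3
      _ ≤ (16 ^ n * N ^ 2) * (h * nj * nk ^ 2) := le_mul_of_one_le_left (by positivity) c4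
      _ = _ := by ring
  rw [e1, e2]
  have b3 : P ^ 2 * N ^ 2 * nk ^ 2 / (h * nj * ne) + h * nj * ne / (P ^ 2 * N ^ 2 * nk ^ 2) ≤
      32 ^ (1 * n) * (4 ^ (j * n) * (h * nj * nk) ^ 2) := by
    have c1 : N ^ 2 = 4 ^ (j * n) := by
      rw [hN, ← pow_mul, mul_comm (j * n) 2, pow_mul]
      norm_num
    have c2 : h * nj * nk ^ 2 ≤ (h * nj * nk) ^ 2 := by
      have c5 : 1 ≤ h * nj := one_le_mul_of_one_le_of_one_le hh hnj
      calc h * nj * nk ^ 2 ≤ (h * nj) * (h * nj * nk ^ 2) :=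
            le_mul_of_one_le_left (by positivity) c5
        _ = _ := by ring
    have c3 : (2 : ℝ) * 16 ^ n ≤ 32 ^ n := by
      have : (32 : ℝ) ^ n = 2 ^ n * 16 ^ n := by
        rw [← mul_pow]
        norm_num
      rw [this]
      refine mul_le_mul_of_nonneg_right ?_ (by positivity)
      calc (2 : ℝ) = 2 ^ 1 := by norm_num
        _ ≤ 2 ^ n := pow_le_pow_right₀ (by norm_num) hn
    calc _ ≤ 2 * 16 ^ n * (N ^ 2 * (h * nj * nk ^ 2)) := by linarith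
      _ ≤ 32 ^ n * (N ^ 2 * (h * nj * nk ^ 2)) :=
          mul_le_mul_of_nonneg_right c3 (by positivity)
      _ ≤ 32 ^ n * (N ^ 2 * (h * nj * nk) ^ 2) := by
          refine mul_le_mul_of_nonneg_left (mul_le_mul_of_nonneg_left c2 (by positivity))
            (by positivity)
      _ = _ := by rw [c1, one_mul]
  have b0 : 0 ≤ P ^ 2 * N ^ 2 * nk ^ 2 / (h * nj * ne) +
      h * nj * ne / (P ^ 2 * N ^ 2 * nk ^ 2) := by positivity
  refine (Real.rpow_le_rpow b0 b3 hκ.le).trans ?_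
  rw [Real.mul_rpow (by positivity) (by positivity),
    Real.mul_rpow (by positivity) (by positivity)]
  have d1 := rpow_pow_kappa hκ hκn 32 (by norm_num) 1
  have d2 := rpow_pow_kappa hκ hκn 4 (by norm_num) j
  have d3 : ((h * nj * nk) ^ 2) ^ κ = (h * nj * nk) ^ (2 * κ) := by
    rw [← Real.rpow_natCast, ← Real.rpow_mul (by positivity)]
    norm_num
  rw [d3, pow_one] at *
  have d4 : (0 : ℝ) ≤ (h * nj * nk) ^ (2 * κ) := by positivity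
  have d5 : (0 : ℝ) ≤ (4 ^ (j * n) : ℝ) ^ κ := by positivity
  calc (32 ^ (1 * n) : ℝ) ^ κ * ((4 ^ (j * n) : ℝ) ^ κ * (h * nj * nk) ^ (2 * κ)) ≤
      32 * (4 ^ j * (h * nj * nk) ^ (2 * κ)) :=
        mul_le_mul d1 (mul_le_mul_of_nonneg_right d2 d4) (by positivity) (by norm_num)
    _ = _ := by ring

/-- (c): the volumes -/
theorem vol_le {n : ℕ} {sd nj ne nk h P q E : ℝ} (j : ℕ) (hsd : 1 ≤ sd) (hnj : 1 ≤ nj)
    (hne : 1 ≤ ne) (hnk : 1 ≤ nk) (hen : ne ≤ nk) (hh : 1 ≤ h) (hP : 1 ≤ P)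
    (hP2 : P ≤ 4 ^ n * h) (hq : 0 < q) (hE : 0 < E) (hE2 : E ≤ 3 * q) :
    nk * ne * sd * (E * ((P * 2 ^ (j * n) / h ^ 2) / (sd * (nj * ne))) +
      E * ((P * 2 ^ (j * n) * h)⁻¹ / (sd * nk ^ 2)) +
      E * ((P * 2 ^ (j * n) / h ^ 2) / (sd * (nj * ne))) *
        (E * ((P * 2 ^ (j * n) * h)⁻¹ / (sd * nk ^ 2)))) ≤
    9 * 4 ^ n * 2 ^ (j * n) * (q * h⁻¹ * (1 + nk / nj + q * (h ^ 2)⁻¹ / (sd * nj * nk))) := by
  set N : ℝ := 2 ^ (j * n) with hN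
  have hN1 : 1 ≤ N := one_le_pow₀ (by norm_num)
  have hN0 : 0 < N := by linarith
  have h4 : (1 : ℝ) ≤ 4 ^ n := one_le_pow₀ (by norm_num)
  have e1 : nk * ne * sd * (E * ((P * N / h ^ 2) / (sd * (nj * ne))) +
      E * ((P * N * h)⁻¹ / (sd * nk ^ 2)) +
      E * ((P * N / h ^ 2) / (sd * (nj * ne))) *
        (E * ((P * N * h)⁻¹ / (sd * nk ^ 2)))) =
      E * (P * N * (h ^ 2)⁻¹ * (nk / nj)) + E * (ne / (nk * P * N * h)) +
        E * (E * ((h ^ 3)⁻¹ / (sd * nj * nk))) := by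
    field_simp
  rw [e1]
  have b1 : P * N * (h ^ 2)⁻¹ * (nk / nj) ≤ 4 ^ n * N * (h⁻¹ * (nk / nj)) := by
    have c1 : P * (h ^ 2)⁻¹ ≤ 4 ^ n * h⁻¹ := by
      calc P * (h ^ 2)⁻¹ ≤ (4 ^ n * h) * (h ^ 2)⁻¹ :=
            mul_le_mul_of_nonneg_right hP2 (by positivity)
        _ = 4 ^ n * h⁻¹ := by field_simp
    calc P * N * (h ^ 2)⁻¹ * (nk / nj) = (P * (h ^ 2)⁻¹) * (N * (nk / nj)) := by ring
      _ ≤ (4 ^ n * h⁻¹) * (N * (nk / nj)) := mul_le_mul_of_nonneg_right c1 (by positivity)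
      _ = _ := by ring
  have b2 : ne / (nk * P * N * h) ≤ 4 ^ n * N * (h⁻¹ * 1) := by
    have c1 : ne / (nk * P * N * h) = (ne / nk) * (P * N)⁻¹ * h⁻¹ := by field_simp
    have c2 : ne / nk ≤ 1 := (div_le_one (by linarith)).2 hen
    have c3 : (P * N)⁻¹ ≤ 1 := inv_le_one_of_one_le₀ (one_le_mul_of_one_le_of_one_le hP hN1)
    have c4 : (ne / nk) * (P * N)⁻¹ ≤ 1 := mul_le_one₀ c2 (by positivity) c3
    have c5 : 1 ≤ 4 ^ n * N := one_le_mul_of_one_le_of_one_le h4 hN1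
    rw [c1, mul_one]
    exact mul_le_mul_of_nonneg_right (c4.trans c5) (by positivity)
  have b3 : E * ((h ^ 3)⁻¹ / (sd * nj * nk)) ≤
      3 * (4 ^ n * N * (h⁻¹ * (q * (h ^ 2)⁻¹ / (sd * nj * nk)))) := by
    have c1 : E * ((h ^ 3)⁻¹ / (sd * nj * nk)) ≤ (3 * q) * ((h ^ 3)⁻¹ / (sd * nj * nk)) :=
      mul_le_mul_of_nonneg_right hE2 (by positivity)
    have c2 : (3 * q) * ((h ^ 3)⁻¹ / (sd * nj * nk)) =
        3 * (h⁻¹ * (q * (h ^ 2)⁻¹ / (sd * nj * nk))) := by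
      field_simp
    have c5 : 1 ≤ 4 ^ n * N := one_le_mul_of_one_le_of_one_le h4 hN1
    rw [c2] at c1
    refine c1.trans ?_
    have c6 : 0 ≤ h⁻¹ * (q * (h ^ 2)⁻¹ / (sd * nj * nk)) := by positivity
    have c7 := le_mul_of_one_le_left c6 c5
    linarith
  have z1 : 0 ≤ 4 ^ n * N * (h⁻¹ * (nk / nj)) := by positivity
  have z2 : 0 ≤ 4 ^ n * N * (h⁻¹ * 1) := by positivity
  have z3 : 0 ≤ 4 ^ n * N * (h⁻¹ * (q * (h ^ 2)⁻¹ / (sd * nj * nk))) := by positivity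
  calc E * (P * N * (h ^ 2)⁻¹ * (nk / nj)) + E * (ne / (nk * P * N * h)) +
        E * (E * ((h ^ 3)⁻¹ / (sd * nj * nk))) ≤
      E * (4 ^ n * N * (h⁻¹ * (nk / nj))) + E * (4 ^ n * N * (h⁻¹ * 1)) +
        E * (3 * (4 ^ n * N * (h⁻¹ * (q * (h ^ 2)⁻¹ / (sd * nj * nk))))) :=
        add_le_add (add_le_add (mul_le_mul_of_nonneg_left b1 hE.le)
          (mul_le_mul_of_nonneg_left b2 hE.le)) (mul_le_mul_of_nonneg_left b3 hE.le)
    _ = E * (4 ^ n * N * (h⁻¹ * (nk / nj)) + 4 ^ n * N * (h⁻¹ * 1) +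
        3 * (4 ^ n * N * (h⁻¹ * (q * (h ^ 2)⁻¹ / (sd * nj * nk))))) := by ring
    _ ≤ (3 * q) * (3 * (4 ^ n * N * (h⁻¹ * (nk / nj))) + 3 * (4 ^ n * N * (h⁻¹ * 1)) +
        3 * (4 ^ n * N * (h⁻¹ * (q * (h ^ 2)⁻¹ / (sd * nj * nk))))) := by
        refine mul_le_mul hE2 (by linarith) (by positivity) (by positivity)
    _ = _ := by ring

/-- the real inequality for the pairs -/
theorem real_main {n : ℕ} (hn : 0 < n) {κ : ℝ} (hκ : 0 < κ) (hκn : κ * n ≤ 1)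
    {d nj ne nk h P τ C1 C2 C4 BB D cw : ℝ} (j : ℕ) (hd : 1 ≤ d) (hnj : 1 ≤ nj)
    (hne : 1 ≤ ne) (hnk : 1 ≤ nk) (hen : ne ≤ nk) (hh : 1 ≤ h) (hP : 1 ≤ P)
    (hP2 : P ≤ 4 ^ n * h) (hC1 : 0 ≤ C1) (hC2 : 0 ≤ C2) (hC4 : 0 ≤ C4) (hBB : 0 ≤ BB)
    (hD : 0 ≤ D) (hcw : 0 ≤ cw) :
    (C1 * BB * h⁻¹ * (D * nk) * (exp (-τ) / (√d * nk ^ 2))) * (ne * (C2 * (P⁻¹ *
      ((2 : ℝ) ^ (-(((2 * n + 4) * j : ℕ) : ℝ)) *
      ((exp (τ + 2) * (√d * nk ^ 2 * (P * 2 ^ (j * n) * h))) *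
      (C4 * (cw * d ^ ((1 + κ) / 2)) *
        ((((P * 2 ^ (j * n) / h ^ 2) / (√d * (nj * ne))) /
          ((P * 2 ^ (j * n) * h)⁻¹ / (√d * nk ^ 2)) +
          ((P * 2 ^ (j * n) * h)⁻¹ / (√d * nk ^ 2)) /
          ((P * 2 ^ (j * n) / h ^ 2) / (√d * (nj * ne)))) ^ κ *
          (exp (1 - τ) * ((P * 2 ^ (j * n) / h ^ 2) / (√d * (nj * ne))) +
            exp (1 - τ) * ((P * 2 ^ (j * n) * h)⁻¹ / (√d * nk ^ 2)) +
            exp (1 - τ) * ((P * 2 ^ (j * n) / h ^ 2) / (√d * (nj * ne))) *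
              (exp (1 - τ) * ((P * 2 ^ (j * n) * h)⁻¹ / (√d * nk ^ 2)))))) *
          3))))) ≤
    (3 * 8 * 32 * 9 * 4 ^ n * (C1 * C2 * C4)) * (BB * cw * D * (d ^ (κ / 2) *
      (h * nj * nk) ^ (2 * κ)) *
      (exp (-τ) * h⁻¹ * (1 + nk / nj + exp (-τ) * (h ^ 2)⁻¹ / (√d * nj * nk)))) *
      (1 / 4) ^ j := by
  have hsd : 1 ≤ √d := Real.one_le_sqrt.2 hd
  have ha := rho_le hn hκ hκn j hsd hnj hne hnk hen hh hP hP2
  have he1 : exp (1 - τ) ≤ 3 * exp (-τ) := by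
    rw [sub_eq_add_neg, Real.exp_add]
    refine mul_le_mul_of_nonneg_right ?_ (exp_pos _).le
    have := Real.exp_one_lt_d9
    linarith
  have hc := vol_le (n := n) j hsd hnj hne hnk hen hh hP hP2 (exp_pos (-τ)) (exp_pos (1 - τ)) he1
  set N : ℝ := 2 ^ (j * n) with hN
  have hN1 : 1 ≤ N := one_le_pow₀ (by norm_num)
  set α : ℝ := (P * N / h ^ 2) / (√d * (nj * ne)) with hα
  set β : ℝ := (P * N * h)⁻¹ / (√d * nk ^ 2) with hβ
  set R : ℝ := (α / β + β / α) ^ κ with hR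
  set x : ℝ := (2 : ℝ) ^ (-(((2 * n + 4) * j : ℕ) : ℝ)) with hx
  set Br : ℝ := exp (-τ) * h⁻¹ * (1 + nk / nj + exp (-τ) * (h ^ 2)⁻¹ / (√d * nj * nk)) with hBr
  set V : ℝ := exp (1 - τ) * α + exp (1 - τ) * β + exp (1 - τ) * α * (exp (1 - τ) * β) with hV
  have hα0 : 0 ≤ α := by positivity
  have hβ0 : 0 ≤ β := by positivity
  have hR0 : 0 ≤ R := by positivity
  have hV0 : 0 ≤ V := by positivity
  have hx0 : 0 ≤ x := by positivity
  have hBr0 : 0 ≤ Br := by positivity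
  have hee : exp (-τ) * exp (τ + 2) ≤ 8 := by
    rw [← Real.exp_add, show -τ + (τ + 2) = 1 + 1 by ring, Real.exp_add]
    have h1 := Real.exp_one_lt_d9
    have h2 := Real.exp_pos 1
    nlinarith
  have key : (C1 * BB * h⁻¹ * (D * nk) * (exp (-τ) / (√d * nk ^ 2))) * (ne * (C2 * (P⁻¹ *
      (x * ((exp (τ + 2) * (√d * nk ^ 2 * (P * N * h))) *
      (C4 * (cw * d ^ ((1 + κ) / 2)) * (R * V)) * 3))))) =
      (3 * (C1 * C2 * C4) * (BB * cw * D * d ^ (κ / 2))) * ((exp (-τ) * exp (τ + 2)) *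
        ((x * N) * (R * (nk * ne * √d * V)))) := by
    rw [disc_pow hd]
    field_simp
  rw [key]
  have hg := geo_eq n j
  rw [← hx, ← hN] at hg
  have hco : 0 ≤ 3 * (C1 * C2 * C4) * (BB * cw * D * d ^ (κ / 2)) := by positivity
  calc (3 * (C1 * C2 * C4) * (BB * cw * D * d ^ (κ / 2))) * ((exp (-τ) * exp (τ + 2)) *
        ((x * N) * (R * (nk * ne * √d * V)))) ≤
      (3 * (C1 * C2 * C4) * (BB * cw * D * d ^ (κ / 2))) * (8 *
        ((x * N) * ((32 * 4 ^ j * (h * nj * nk) ^ (2 * κ)) * (9 * 4 ^ n * N * Br)))) := by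
        refine mul_le_mul_of_nonneg_left ?_ hco
        refine mul_le_mul hee ?_ (by positivity) (by norm_num)
        refine mul_le_mul_of_nonneg_left ?_ (by positivity)
        exact mul_le_mul ha hc (by positivity) (by positivity)
    _ = (3 * 8 * 32 * 9 * 4 ^ n * (C1 * C2 * C4)) * (BB * cw * D * (d ^ (κ / 2) *
      (h * nj * nk) ^ (2 * κ)) * Br) * (x * N ^ 2 * 4 ^ j) := by ring
    _ = _ := by rw [hg]

/-- the real inequality for the diagonal -/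
theorem real_diag {n : ℕ} (hn : 0 < n) {κ : ℝ} (hκ : 0 < κ) (hκ1 : κ ≤ 1) (hκn : κ * n ≤ 1)
    {d h τ C3 C4 BB cw : ℝ} (j : ℕ) (hd : 1 ≤ d) (hh : 1 ≤ h) (hC3 : 0 ≤ C3) (hC4 : 0 ≤ C4)
    (hBB : 0 ≤ BB) (hcw : 0 ≤ cw) :
    (C3 * BB * h⁻¹) * ((2 : ℝ) ^ (-(((2 * n + 4) * j : ℕ) : ℝ)) *
      ((C4 * (cw * d ^ ((1 + κ) / 2)) * (exp (1 - τ) * (2 ^ (j * n) / (√d * 1))) ^ (1 + κ)) *
        3)) ≤
    (27 * (C3 * C4)) * (BB * cw * (d ^ (κ / 2) * (exp |τ|) ^ κ) * (exp (-τ) * h⁻¹)) *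
      (1 / 4) ^ j := by
  have hsd : 1 ≤ √d := Real.one_le_sqrt.2 hd
  have hg := geo_le n j hn
  have hk := rpow_pow_kappa hκ hκn 2 (by norm_num) j
  set N : ℝ := 2 ^ (j * n) with hN
  have hN1 : 1 ≤ N := one_le_pow₀ (by norm_num)
  set x : ℝ := (2 : ℝ) ^ (-(((2 * n + 4) * j : ℕ) : ℝ)) with hx
  have hx0 : 0 ≤ x := by positivity
  have hE : 0 < exp (1 - τ) := exp_pos _
  have he1 : exp (1 - τ) ≤ 3 * exp (-τ) := by
    rw [sub_eq_add_neg, Real.exp_add]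
    refine mul_le_mul_of_nonneg_right ?_ (exp_pos _).le
    have := Real.exp_one_lt_d9
    linarith
  have h3 : exp 1 ≤ 3 := by
    have := Real.exp_one_lt_d9
    linarith
  have hEk : exp (1 - τ) ^ κ ≤ 3 * (exp |τ|) ^ κ := by
    have h1 : exp (1 - τ) ≤ 3 * exp |τ| := by
      rw [sub_eq_add_neg, Real.exp_add]
      exact mul_le_mul h3 (Real.exp_le_exp.2 (neg_le_abs τ)) (exp_pos _).le (by norm_num)
    refine (Real.rpow_le_rpow hE.le h1 hκ.le).trans ?_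
    rw [Real.mul_rpow (by norm_num) (exp_pos _).le]
    refine mul_le_mul_of_nonneg_right ?_ (by positivity)
    calc (3 : ℝ) ^ κ ≤ 3 ^ (1 : ℝ) := Real.rpow_le_rpow_of_exponent_le (by norm_num) hκ1
      _ = 3 := Real.rpow_one 3
  have hpow : (exp (1 - τ) * (N / (√d * 1))) ^ (1 + κ) ≤
      (exp (1 - τ) * (N / √d)) * ((3 * (exp |τ|) ^ κ) * 2 ^ j) := by
    rw [mul_one, Real.rpow_add (by positivity), Real.rpow_one]
    refine mul_le_mul_of_nonneg_left ?_ (by positivity)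
    have h1 : exp (1 - τ) * (N / √d) ≤ exp (1 - τ) * N :=
      mul_le_mul_of_nonneg_left (div_le_self (by linarith) hsd) hE.le
    refine (Real.rpow_le_rpow (by positivity) h1 hκ.le).trans ?_
    rw [Real.mul_rpow hE.le (by linarith)]
    exact mul_le_mul hEk hk (by positivity) (by positivity)
  have hd0 : 0 ≤ d ^ (κ / 2) := by positivity
  calc (C3 * BB * h⁻¹) * (x * ((C4 * (cw * d ^ ((1 + κ) / 2)) *
        (exp (1 - τ) * (N / (√d * 1))) ^ (1 + κ)) * 3)) ≤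
      (C3 * BB * h⁻¹) * (x * ((C4 * (cw * d ^ ((1 + κ) / 2)) *
        ((exp (1 - τ) * (N / √d)) * ((3 * (exp |τ|) ^ κ) * 2 ^ j))) * 3)) := by
        refine mul_le_mul_of_nonneg_left ?_ (by positivity)
        refine mul_le_mul_of_nonneg_left ?_ hx0
        refine mul_le_mul_of_nonneg_right ?_ (by norm_num)
        exact mul_le_mul_of_nonneg_left hpow (by positivity)
    _ = (9 * (C3 * C4)) * (BB * cw * (d ^ (κ / 2) * (exp |τ|) ^ κ) *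
        (exp (1 - τ) * h⁻¹)) * (x * N * 2 ^ j) := by
        rw [disc_pow hd]
        field_simp
        ring
    _ ≤ (9 * (C3 * C4)) * (BB * cw * (d ^ (κ / 2) * (exp |τ|) ^ κ) *
        ((3 * exp (-τ)) * h⁻¹)) * (1 / 4) ^ j := by
        refine mul_le_mul ?_ hg (by positivity) (by positivity)
        refine mul_le_mul_of_nonneg_left ?_ (by positivity)
        refine mul_le_mul_of_nonneg_left ?_ (by positivity)
        exact mul_le_mul_of_nonneg_right he1 (by positivity)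
    _ = _ := by ring

/-- the number of the scales -/
theorem scale_le {δ : ℝ} (hδ : 0 < δ) (hδ1 : δ ≤ 1) (m : ℕ) {H : ℝ} (hH : 1 ≤ H)
    (hm : (2 : ℝ) ^ m < 4 * H) : (m : ℝ) + 1 ≤ (8 / δ) * H ^ δ := by
  have hl1 : Real.log 2 ≤ 1 := by
    have := Real.log_two_lt_d9
    linarith
  have hl2 : 1 / 2 ≤ Real.log 2 := by
    have := Real.log_two_gt_d9
    linarith
  have h1 : δ * (m * Real.log 2) + 1 ≤ exp (δ * (m * Real.log 2)) := Real.add_one_le_exp _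
  have h2 : exp (δ * (m * Real.log 2)) = ((2 : ℝ) ^ m) ^ δ := by
    rw [Real.rpow_def_of_pos (by positivity), Real.log_pow]
    congr 1
    ring
  have h3 : ((2 : ℝ) ^ m) ^ δ ≤ (4 * H) ^ δ := Real.rpow_le_rpow (by positivity) hm.le hδ.le
  have h4 : (4 * H) ^ δ ≤ 4 * H ^ δ := by
    rw [Real.mul_rpow (by norm_num) (by linarith)]
    refine mul_le_mul_of_nonneg_right ?_ (by positivity)
    calc (4 : ℝ) ^ δ ≤ 4 ^ (1 : ℝ) := Real.rpow_le_rpow_of_exponent_le (by norm_num) hδ1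
      _ = 4 := Real.rpow_one 4
  have h5 : (δ / 2) * (m + 1) ≤ δ * (m * Real.log 2) + 1 := by
    have hm0 : (0 : ℝ) ≤ m := Nat.cast_nonneg m
    have : δ * m * (1 / 2) ≤ δ * m * Real.log 2 :=
      mul_le_mul_of_nonneg_left hl2 (by positivity)
    nlinarith
  have h6 : (δ / 2) * (m + 1) ≤ 4 * H ^ δ := by
    rw [h2] at h1
    linarith
  have h7 : (8 / δ) * H ^ δ = (2 / δ) * (4 * H ^ δ) := by ring
  rw [h7]
  calc (m : ℝ) + 1 = (2 / δ) * ((δ / 2) * (m + 1)) := by field_simp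
    _ ≤ _ := mul_le_mul_of_nonneg_left h6 (by positivity)

/-- the product of all the small factors -/
theorem small_le {ε κ d nj nk h T : ℝ} (hε : 0 < ε) (hκ : 0 < κ) (hκε : κ ≤ ε / 8)
    (hd : 1 ≤ d) (hnj : 1 ≤ nj) (hnk : 1 ≤ nk) (hh : 1 ≤ h) (hT : 1 ≤ T) :
    d ^ (κ / 2) * (h * nj * nk) ^ (2 * κ) * h ^ (ε / 4) ≤ (d * nj * nk * h * T) ^ ε ∧
    d ^ (κ / 2) * T ^ κ ≤ (d * nj * nk * h * T) ^ ε := by
  have a1 : d ^ (κ / 2) ≤ d ^ ε := Real.rpow_le_rpow_of_exponent_le hd (by linarith)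
  have a2 : nj ^ (2 * κ) ≤ nj ^ ε := Real.rpow_le_rpow_of_exponent_le hnj (by linarith)
  have a3 : nk ^ (2 * κ) ≤ nk ^ ε := Real.rpow_le_rpow_of_exponent_le hnk (by linarith)
  have a4 : h ^ (2 * κ) * h ^ (ε / 4) ≤ h ^ ε := by
    rw [← Real.rpow_add (by linarith)]
    exact Real.rpow_le_rpow_of_exponent_le hh (by linarith)
  have a5 : 1 ≤ T ^ ε := Real.one_le_rpow hT hε.le
  have a6 : T ^ κ ≤ T ^ ε := Real.rpow_le_rpow_of_exponent_le hT (by linarith)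
  have a7 : 1 ≤ nj ^ ε := Real.one_le_rpow hnj hε.le
  have a8 : 1 ≤ nk ^ ε := Real.one_le_rpow hnk hε.le
  have a9 : 1 ≤ h ^ ε := Real.one_le_rpow hh hε.le
  have e1 : (d * nj * nk * h * T) ^ ε = d ^ ε * nj ^ ε * nk ^ ε * h ^ ε * T ^ ε := by
    rw [Real.mul_rpow (by positivity) (by positivity), Real.mul_rpow (by positivity)
      (by positivity), Real.mul_rpow (by positivity) (by positivity),
      Real.mul_rpow (by positivity) (by positivity)]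
  have e2 : (h * nj * nk) ^ (2 * κ) = h ^ (2 * κ) * nj ^ (2 * κ) * nk ^ (2 * κ) := by
    rw [Real.mul_rpow (by positivity) (by positivity), Real.mul_rpow (by positivity)
      (by positivity)]
  have p1 : 0 ≤ d ^ (κ / 2) := by positivity
  have p2 : 0 ≤ nj ^ (2 * κ) := by positivity
  have p3 : 0 ≤ nk ^ (2 * κ) := by positivity
  have p4 : 0 ≤ h ^ (2 * κ) * h ^ (ε / 4) := by positivity
  rw [e1, e2]
  constructor
  · calc d ^ (κ / 2) * (h ^ (2 * κ) * nj ^ (2 * κ) * nk ^ (2 * κ)) * h ^ (ε / 4) =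
        d ^ (κ / 2) * nj ^ (2 * κ) * nk ^ (2 * κ) * (h ^ (2 * κ) * h ^ (ε / 4)) * 1 := by ring
      _ ≤ d ^ ε * nj ^ ε * nk ^ ε * h ^ ε * T ^ ε := by gcongr
  · calc d ^ (κ / 2) * T ^ κ = d ^ (κ / 2) * 1 * 1 * 1 * T ^ κ := by ring
      _ ≤ d ^ ε * nj ^ ε * nk ^ ε * h ^ ε * T ^ ε := by gcongr

end Pool.Agent.H16.DW
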