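import Pool.Agent.H16.DW.TT1
import Pool.Agent.H16.DW.TT2

/-!
# The hybrid Weyl bound: the mean square for a system of representatives
-/

set_option autoImplicit false
set_option linter.unusedSectionVars false
set_option linter.unusedVariables false

open NumberField NumberField.InfinitePlace NumberField.Units
  NumberField.Units.dirichletUnitTheorem MeasureTheory Set Filter Complex
open scoped nonZeroDivisors ENNReal

namespace Pool.Agent.H16.DW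

open Pool.Agent.H25.HK Pool.Agent.H23.LB Pool.Agent.H23.LC Pool.Agent.H29.DW
open Pool.Agent.H28.RC (Rep ft idl)
open Pool.Agent.H29.TC (GK fk_le dvs)

section NF

variable {K : Type} [Field K] [NumberField K]

theorem cw_nn : 0 ≤ cw K := by
  unfold cw
  positivity

/-- the product of the scales -/
noncomputable def PP (i : InfinitePlace K → ℕ) : ℝ := ∏ v, (2 : ℝ) ^ (i v * v.mult)

theorem one_le_PP (i : InfinitePlace K → ℕ) : 1 ≤ PP i := by
  unfold PP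
  exact Finset.prod_induction _ (fun x : ℝ => 1 ≤ x)
    (fun a b ha hb => one_le_mul_of_one_le_of_one_le ha hb) le_rfl
    fun v _ => one_le_pow₀ (by norm_num)

theorem PP_inv (i : InfinitePlace K → ℕ) :
    ∏ v : InfinitePlace K, (2 : ℝ) ^ (-((i v * v.mult : ℕ) : ℝ)) = (PP i)⁻¹ := by
  unfold PP
  rw [← Finset.prod_inv_distrib]
  refine Finset.prod_congr rfl fun v _ => ?_
  rw [Real.rpow_neg (by norm_num), Real.rpow_natCast]

theorem PP_le {n : ℕ} (hn : Module.finrank ℚ K = n) {H : InfinitePlace K → ℝ}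
    (hH : ∀ v, 1 ≤ H v) (i : InfinitePlace K → ℕ) (hi : ∀ v, i v ≤ nH (H v)) :
    PP i ≤ 4 ^ n * HH H := by
  unfold PP HH
  rw [← sum_mult hn, ← Finset.prod_pow_eq_pow_sum, ← Finset.prod_mul_distrib]
  refine Finset.prod_le_prod (fun v _ => by positivity) fun v _ => ?_
  rw [pow_mul, ← mul_pow]
  refine pow_le_pow_left₀ (by positivity) ?_ _
  calc (2 : ℝ) ^ i v ≤ 2 ^ nH (H v) := pow_le_pow_right₀ (by norm_num) (hi v)
    _ ≤ 4 * H v := (nH_lt (hH v)).le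

theorem prod_two {n : ℕ} (hn : Module.finrank ℚ K = n) (j : ℕ) :
    ∏ v : InfinitePlace K, ((2 : ℝ) ^ j) ^ v.mult = 2 ^ (j * n) := by
  rw [Finset.prod_pow_eq_pow_sum, sum_mult hn, ← pow_mul]

theorem prod_w1 {n : ℕ} (hn : Module.finrank ℚ K = n) (H : InfinitePlace K → ℝ)
    (i : InfinitePlace K → ℕ) (j : ℕ) :
    ∏ v : InfinitePlace K, ((2 : ℝ) ^ (i v + j) / H v ^ 2) ^ v.mult =
      PP i * 2 ^ (j * n) / HH H ^ 2 := by
  unfold PP HH
  rw [← prod_two hn j, ← Finset.prod_mul_distrib, ← Finset.prod_pow, ← Finset.prod_div_distrib]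
  refine Finset.prod_congr rfl fun v _ => ?_
  rw [div_pow, pow_add, mul_pow, ← pow_mul, ← pow_mul (H v), ← pow_mul (H v), mul_comm 2 v.mult]

theorem prod_w2 {n : ℕ} (hn : Module.finrank ℚ K = n) (H : InfinitePlace K → ℝ)
    (i : InfinitePlace K → ℕ) (j : ℕ) :
    ∏ v : InfinitePlace K, ((2 : ℝ) ^ (i v + j) * H v) ^ v.mult =
      PP i * 2 ^ (j * n) * HH H := by
  unfold PP HH
  rw [← prod_two hn j, ← Finset.prod_mul_distrib, ← Finset.prod_mul_distrib]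
  refine Finset.prod_congr rfl fun v _ => ?_
  rw [mul_pow, pow_add, mul_pow, ← pow_mul]

variable (K)

open scoped Classical in
/-- the mean values of the pair counts for one field -/
def CTK (κ C : ℝ) : Prop :=
  ∀ (ι : Type) [Fintype ι] (M : ι → FI K),
    Reps K M → ∀ (j₁ j₂ : Ideal (𝓞 K)) (a b : InfinitePlace K → ℝ) (τ : ℝ), j₁ ≠ ⊥ → j₂ ≠ ⊥ →
    ∑ c, ∫⁻ z in Fd K, ENNReal.ofReal
      ((th K ((j₁ : FI K) * M c) (fun v => yM K (M c) τ z v + a v) - 1) *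
        th K ((j₂ : FI K) * M c) (fun v => yM K (M c) τ z v + b v)) ≤
      ENNReal.ofReal (C * (cw K * |(discr K : ℝ)| ^ ((1 + κ) / 2)) *
        ((VV K j₁ a τ / VV K j₂ b τ + VV K j₂ b τ / VV K j₁ a τ) ^ κ *
          (VV K j₁ a τ + VV K j₂ b τ + VV K j₁ a τ * VV K j₂ b τ))) ∧
    ∑ c, ∫⁻ z in Fd K, ENNReal.ofReal
      (th K ((j₁ : FI K) * M c) (fun v => yM K (M c) τ z v + a v) - 1) ≤
      ENNReal.ofReal (C * (cw K * |(discr K : ℝ)| ^ ((1 + κ) / 2)) * VV K j₁ a τ ^ (1 + κ))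

variable {K}

open scoped Classical in
/-- the mean value of the pairs -/
theorem pair_ct {n : ℕ} (hn : Module.finrank ℚ K = n) {κ C4 : ℝ} (hκ : 0 < κ) (hC4 : 0 ≤ C4)
    (hct : CTK K κ C4) (hTH : T_TH) {ι : Type} [Fintype ι] (M : ι → FI K) (hM : Reps K M)
    {j k e : Ideal (𝓞 K)} (hj : j ≠ ⊥) (hk : k ≠ ⊥) (he : e ≠ ⊥) {H : InfinitePlace K → ℝ}
    (hH : ∀ v, 1 ≤ H v) (i : InfinitePlace K → ℕ) (jj : ℕ) (τ₁ : ℝ) :
    ∑ c, ∫⁻ z in Fd K, ∫⁻ τ in Icc (τ₁ - 1) (τ₁ + 2), ENNReal.ofReal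
      ((th K (((j * e : Ideal (𝓞 K)) : FI K) * M c)
        (fun v => yM K (M c) τ z v - 2 * Real.log (2 ^ (i v + jj) / H v ^ 2)) - 1) *
        th K (du K (((k ^ 2 : Ideal (𝓞 K)) : FI K) * M c))
          (fun v => -yM K (M c) τ z v - 2 * Real.log (2 ^ (i v + jj) * H v))) ≤
    ENNReal.ofReal (((Real.exp (τ₁ + 2) * (√|(discr K : ℝ)| * Nf K k ^ 2 *
        (PP i * 2 ^ (jj * n) * HH H))) *
      (C4 * (cw K * |(discr K : ℝ)| ^ ((1 + κ) / 2)) *
        ((((PP i * 2 ^ (jj * n) / HH H ^ 2) / (√|(discr K : ℝ)| * (Nf K j * Nf K e))) /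
          ((PP i * 2 ^ (jj * n) * HH H)⁻¹ / (√|(discr K : ℝ)| * Nf K k ^ 2)) +
          ((PP i * 2 ^ (jj * n) * HH H)⁻¹ / (√|(discr K : ℝ)| * Nf K k ^ 2)) /
          ((PP i * 2 ^ (jj * n) / HH H ^ 2) / (√|(discr K : ℝ)| * (Nf K j * Nf K e)))) ^ κ *
          (Real.exp (1 - τ₁) * ((PP i * 2 ^ (jj * n) / HH H ^ 2) /
              (√|(discr K : ℝ)| * (Nf K j * Nf K e))) +
            Real.exp (1 - τ₁) * ((PP i * 2 ^ (jj * n) * HH H)⁻¹ /
              (√|(discr K : ℝ)| * Nf K k ^ 2)) +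
            Real.exp (1 - τ₁) * ((PP i * 2 ^ (jj * n) / HH H ^ 2) /
              (√|(discr K : ℝ)| * (Nf K j * Nf K e))) *
              (Real.exp (1 - τ₁) * ((PP i * 2 ^ (jj * n) * HH H)⁻¹ /
                (√|(discr K : ℝ)| * Nf K k ^ 2))))))) * 3) := by
  set w₁ : InfinitePlace K → ℝ := fun v => 2 ^ (i v + jj) / H v ^ 2 with hw₁
  set w₂ : InfinitePlace K → ℝ := fun v => 2 ^ (i v + jj) * H v with hw₂
  have hH0 : ∀ v, 0 < H v := fun v => lt_of_lt_of_le one_pos (hH v)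
  have pw₁ : ∀ v, 0 < w₁ v := fun v => by
    have := hH0 v
    positivity
  have pw₂ : ∀ v, 0 < w₂ v := fun v => by
    have := hH0 v
    positivity
  have hje : j * e ≠ ⊥ := mul_ne_zero hj he
  have hk2 : k ^ 2 ≠ ⊥ := pow_ne_zero 2 hk
  set sd : ℝ := √|(discr K : ℝ)| with hsd
  have hsd1 : 1 ≤ sd := one_le_sqrt_disc
  have hnj := one_le_Nf' hj
  have hnk := one_le_Nf' hk
  have hne := one_le_Nf' he
  have hP := one_le_PP i
  have hh : 1 ≤ HH H := one_le_HH hH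
  set α : ℝ := (PP i * 2 ^ (jj * n) / HH H ^ 2) / (sd * (Nf K j * Nf K e)) with hα
  set β : ℝ := (PP i * 2 ^ (jj * n) * HH H)⁻¹ / (sd * Nf K k ^ 2) with hβ
  have hα0 : 0 < α := by positivity
  have hβ0 : 0 < β := by positivity
  set F : ℝ := Real.exp (τ₁ + 2) * (sd * Nf K k ^ 2 * (PP i * 2 ^ (jj * n) * HH H)) with hF
  have hF0 : 0 ≤ F := by positivity
  have v1 : ∀ τ, VV K (j * e) (fun v => -(2 * Real.log (w₁ v))) τ = Real.exp (-τ) * α := by
    intro τ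
    rw [VV_neg _ w₁ pw₁, Nf_mul', hα]
    simp only [hw₁]
    rw [prod_w1 hn]
  have v2 : ∀ τ, VV K (k ^ 2) (fun v => 2 * Real.log (w₂ v)) τ = Real.exp (-τ) * β := by
    intro τ
    rw [VV_pos _ w₂ pw₂, Nf_pow', hβ]
    simp only [hw₂]
    rw [prod_w2 hn]
  set X : ι → logSpace K × ℝ → ℝ := fun c p =>
    (th K (((j * e : Ideal (𝓞 K)) : FI K) * M c)
      (fun v => yM K (M c) p.2 p.1 v + -(2 * Real.log (w₁ v))) - 1) *
    th K (((k ^ 2 : Ideal (𝓞 K)) : FI K) * M c)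
      (fun v => yM K (M c) p.2 p.1 v + 2 * Real.log (w₂ v)) with hX
  have hXm : ∀ c, Measurable (fun p => ENNReal.ofReal F * ENNReal.ofReal (X c p)) := by
    intro c
    have h1 : ((j * e : Ideal (𝓞 K)) : FI K) * M c ≠ 0 :=
      mul_ne_zero (FractionalIdeal.coeIdeal_ne_zero.2 hje) (hM.1 c)
    have h2 : ((k ^ 2 : Ideal (𝓞 K)) : FI K) * M c ≠ 0 :=
      mul_ne_zero (FractionalIdeal.coeIdeal_ne_zero.2 hk2) (hM.1 c)
    have h3 := th_cont hTH _ (M c) h1 (fun v => -(2 * Real.log (w₁ v)))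
    have h4 := th_cont hTH _ (M c) h2 (fun v => 2 * Real.log (w₂ v))
    have h5 : Measurable (X c) := ((h3.sub continuous_const).mul h4).measurable
    exact h5.ennreal_ofReal.const_mul _
  set R : ℝ := (F * (C4 * (cw K * |(discr K : ℝ)| ^ ((1 + κ) / 2)) *
        ((α / β + β / α) ^ κ * (Real.exp (1 - τ₁) * α + Real.exp (1 - τ₁) * β +
            Real.exp (1 - τ₁) * α * (Real.exp (1 - τ₁) * β))))) with hR
  have hcw : 0 ≤ cw K := cw_nn
  have hR0 : 0 ≤ R := by positivity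
  have hstep : ∀ c z τ, τ ∈ Icc (τ₁ - 1) (τ₁ + 2) → ENNReal.ofReal
      ((th K (((j * e : Ideal (𝓞 K)) : FI K) * M c)
        (fun v => yM K (M c) τ z v - 2 * Real.log (w₁ v)) - 1) *
        th K (du K (((k ^ 2 : Ideal (𝓞 K)) : FI K) * M c))
          (fun v => -yM K (M c) τ z v - 2 * Real.log (w₂ v))) ≤
      ENNReal.ofReal F * ENNReal.ofReal (X c (z, τ)) := by
    intro c z τ hτ
    rw [th_inv hTH (hM.1 c) hk τ z w₂ pw₂]
    have e1 : ∏ v, w₂ v ^ v.mult = PP i * 2 ^ (jj * n) * HH H := prod_w2 hn H i jj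
    rw [e1, ← hsd]
    set F' : ℝ := Real.exp τ * (sd * Nf K k ^ 2 * (PP i * 2 ^ (jj * n) * HH H)) with hF'
    have hF'0 : 0 ≤ F' := by positivity
    have hFF : F' ≤ F := by
      refine mul_le_mul_of_nonneg_right (Real.exp_le_exp.2 hτ.2) (by positivity)
    have e2 : (th K (((j * e : Ideal (𝓞 K)) : FI K) * M c)
        (fun v => yM K (M c) τ z v - 2 * Real.log (w₁ v)) - 1) *
        (F' * th K (((k ^ 2 : Ideal (𝓞 K)) : FI K) * M c)
          (fun v => yM K (M c) τ z v + 2 * Real.log (w₂ v))) = F' * X c (z, τ) := by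
      simp only [hX, ← sub_eq_add_neg]
      ring
    rw [e2, ENNReal.ofReal_mul hF'0]
    exact mul_le_mul' (ENNReal.ofReal_le_ofReal hFF) le_rfl
  have h1 : ∑ c, ∫⁻ z in Fd K, ∫⁻ τ in Icc (τ₁ - 1) (τ₁ + 2), ENNReal.ofReal
      ((th K (((j * e : Ideal (𝓞 K)) : FI K) * M c)
        (fun v => yM K (M c) τ z v - 2 * Real.log (w₁ v)) - 1) *
        th K (du K (((k ^ 2 : Ideal (𝓞 K)) : FI K) * M c))
          (fun v => -yM K (M c) τ z v - 2 * Real.log (w₂ v))) ≤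
      ∑ c, ∫⁻ z in Fd K, ∫⁻ τ in Icc (τ₁ - 1) (τ₁ + 2),
        ENNReal.ofReal F * ENNReal.ofReal (X c (z, τ)) := by
    refine Finset.sum_le_sum fun c _ => lintegral_mono fun z => ?_
    exact setLIntegral_mono' measurableSet_Icc fun τ hτ => hstep c z τ hτ
  refine h1.trans ?_
  have h2 := swap_sum (fun c p => ENNReal.ofReal F * ENNReal.ofReal (X c p)) hXm (τ₁ - 1) (τ₁ + 2)
    (ENNReal.ofReal R) (fun τ hτ => ?_)
  · refine h2.trans (le_of_eq ?_)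
    rw [← ENNReal.ofReal_mul hR0, show τ₁ + 2 - (τ₁ - 1) = 3 by ring]
  · have h3 := (hct ι M hM (j * e) (k ^ 2) (fun v => -(2 * Real.log (w₁ v)))
      (fun v => 2 * Real.log (w₂ v)) τ hje hk2).1
    rw [v1, v2] at h3
    simp only [lintegral_const_mul' _ _ ENNReal.ofReal_ne_top]
    rw [← Finset.mul_sum, hR, ENNReal.ofReal_mul hF0]
    refine mul_le_mul' le_rfl (h3.trans (ENNReal.ofReal_le_ofReal ?_))
    refine mul_le_mul_of_nonneg_left ?_ (by positivity)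
    have hex : 0 < Real.exp (-τ) := Real.exp_pos _
    have q1 : Real.exp (-τ) * α / (Real.exp (-τ) * β) = α / β := by field_simp
    have q2 : Real.exp (-τ) * β / (Real.exp (-τ) * α) = β / α := by field_simp
    rw [q1, q2]
    refine mul_le_mul_of_nonneg_left ?_ (by positivity)
    have hle : Real.exp (-τ) ≤ Real.exp (1 - τ₁) := by
      refine Real.exp_le_exp.2 ?_
      have := hτ.1
      linarith
    have a1 : Real.exp (-τ) * α ≤ Real.exp (1 - τ₁) * α := mul_le_mul_of_nonneg_right hle hα0.le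
    have a2 : Real.exp (-τ) * β ≤ Real.exp (1 - τ₁) * β := mul_le_mul_of_nonneg_right hle hβ0.le
    exact add_le_add (add_le_add a1 a2) (mul_le_mul a1 a2 (by positivity) (by positivity))

open scoped Classical in
/-- the mean value of the diagonal -/
theorem diag_ct {n : ℕ} (hn : Module.finrank ℚ K = n) {κ C4 : ℝ} (hκ : 0 < κ) (hC4 : 0 ≤ C4)
    (hct : CTK K κ C4) (hTH : T_TH) {ι : Type} [Fintype ι] (M : ι → FI K) (hM : Reps K M)
    (jj : ℕ) (τ₁ : ℝ) :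
    ∑ c, ∫⁻ z in Fd K, ∫⁻ τ in Icc (τ₁ - 1) (τ₁ + 2), ENNReal.ofReal
      (th K (M c) (fun v => yM K (M c) τ z v - 2 * Real.log (2 ^ jj)) - 1) ≤
    ENNReal.ofReal ((C4 * (cw K * |(discr K : ℝ)| ^ ((1 + κ) / 2)) *
      (Real.exp (1 - τ₁) * (2 ^ (jj * n) / (√|(discr K : ℝ)| * 1))) ^ (1 + κ)) * 3) := by
  set w : InfinitePlace K → ℝ := fun v => 2 ^ jj with hw
  have pw : ∀ v, 0 < w v := fun v => by positivity
  have htop : (⊤ : Ideal (𝓞 K)) ≠ ⊥ := top_ne_bot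
  have v1 : ∀ τ, VV K ⊤ (fun v => -(2 * Real.log (w v))) τ =
      Real.exp (-τ) * (2 ^ (jj * n) / (√|(discr K : ℝ)| * 1)) := by
    intro τ
    rw [VV_neg _ w pw, Nf_top']
    simp only [hw]
    rw [prod_two hn]
  have hXm : ∀ c, Measurable (fun p : logSpace K × ℝ => ENNReal.ofReal
      (th K (M c) (fun v => yM K (M c) p.2 p.1 v + -(2 * Real.log (w v))) - 1)) := by
    intro c
    have h3 := th_cont hTH _ (M c) (hM.1 c) (fun v => -(2 * Real.log (w v)))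
    exact ((h3.sub continuous_const).measurable).ennreal_ofReal
  have hcw : 0 ≤ cw K := cw_nn
  set R : ℝ := C4 * (cw K * |(discr K : ℝ)| ^ ((1 + κ) / 2)) *
      (Real.exp (1 - τ₁) * (2 ^ (jj * n) / (√|(discr K : ℝ)| * 1))) ^ (1 + κ) with hR
  have hR0 : 0 ≤ R := by positivity
  simp only [sub_eq_add_neg (yM K _ _ _ _)]
  have h2 := swap_sum (fun c (p : logSpace K × ℝ) => ENNReal.ofReal
      (th K (M c) (fun v => yM K (M c) p.2 p.1 v + -(2 * Real.log (w v))) - 1)) hXm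
      (τ₁ - 1) (τ₁ + 2) (ENNReal.ofReal R) (fun τ hτ => ?_)
  · refine h2.trans (le_of_eq ?_)
    rw [← ENNReal.ofReal_mul hR0, show τ₁ + 2 - (τ₁ - 1) = 3 by ring]
  · have h3 := (hct ι M hM ⊤ ⊤ (fun v => -(2 * Real.log (w v)))
      (fun v => -(2 * Real.log (w v))) τ htop htop).2
    rw [v1] at h3
    simp only [FractionalIdeal.coeIdeal_top, one_mul] at h3
    refine h3.trans (ENNReal.ofReal_le_ofReal ?_)
    refine mul_le_mul_of_nonneg_left ?_ (by positivity)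
    have hle : Real.exp (-τ) ≤ Real.exp (1 - τ₁) := by
      refine Real.exp_le_exp.2 ?_
      have := hτ.1
      linarith
    refine Real.rpow_le_rpow (by positivity) ?_ (by linarith)
    exact mul_le_mul_of_nonneg_right hle (by positivity)

open scoped Classical in
/-- the number of the scales -/
theorem card_scales {n : ℕ} (hn : Module.finrank ℚ K = n) {H : InfinitePlace K → ℝ}
    (hH : ∀ v, 1 ≤ H v) {δ : ℝ} (hδ : 0 < δ) (hδ1 : δ ≤ 1) :
    ((Fintype.piFinset (fun v : InfinitePlace K => Finset.range (nH (H v) + 1))).card : ℝ) ≤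
      (8 / δ) ^ n * HH H ^ δ := by
  rw [Fintype.card_piFinset]
  push_cast
  have h8 : 1 ≤ 8 / δ := by
    rw [le_div_iff₀ hδ]
    linarith
  calc ∏ v : InfinitePlace K, ((Finset.range (nH (H v) + 1)).card : ℝ) ≤
      ∏ v : InfinitePlace K, ((8 / δ) ^ v.mult * (H v ^ v.mult) ^ δ) := by
        refine Finset.prod_le_prod (fun v _ => Nat.cast_nonneg _) fun v _ => ?_
        rw [Finset.card_range]
        push_cast
        refine (scale_le hδ hδ1 (nH (H v)) (hH v) (nH_lt (hH v))).trans ?_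
        have h1 : 8 / δ ≤ (8 / δ) ^ v.mult := le_self_pow₀ h8 (by have := (mult_pos' v).1; omega)
        have h2 : H v ≤ H v ^ v.mult := le_self_pow₀ (hH v) (by have := (mult_pos' v).1; omega)
        have h3 : H v ^ δ ≤ (H v ^ v.mult) ^ δ :=
          Real.rpow_le_rpow (by linarith [hH v]) h2 hδ.le
        exact mul_le_mul h1 h3 (Real.rpow_nonneg (by linarith [hH v]) _) (by positivity)
    _ = _ := by
        unfold HH
        rw [Finset.prod_mul_distrib, Finset.prod_pow_eq_pow_sum, sum_mult hn,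
          Real.finsetProd_rpow]
        intro v _
        have := hH v
        positivity

end NF

theorem tsum_quarter (T : ℝ) (hT : 0 ≤ T) :
    ∑' j : ℕ, ENNReal.ofReal (T * (1 / 4) ^ j) ≤ ENNReal.ofReal (2 * T) := by
  have h1 : HasSum (fun j : ℕ => T * (1 / 4 : ℝ) ^ j) (T * (1 - 1 / 4)⁻¹) :=
    (hasSum_geometric_of_lt_one (by norm_num) (by norm_num)).mul_left T
  rw [← ENNReal.ofReal_tsum_of_nonneg (fun j => by positivity) h1.summable, h1.tsum_eq]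
  refine ENNReal.ofReal_le_ofReal ?_
  norm_num
  linarith

theorem sum_out {ι κ : Type} [Fintype ι] (S : Finset κ) (C : ℝ≥0∞) (w : κ → ℝ≥0∞)
    (x : ℕ → ℝ≥0∞) (Z : ι → κ → ℕ → ℝ≥0∞) :
    ∑ c, C * ∑ i ∈ S, w i * ∑' j, x j * Z c i j =
      C * ∑ i ∈ S, w i * ∑' j, x j * ∑ c, Z c i j := by
  rw [← Finset.mul_sum, Finset.sum_comm]
  congr 1
  refine Finset.sum_congr rfl fun i _ => ?_
  rw [← Finset.mul_sum]
  congr 1
  rw [← Summable.tsum_finsetSum (fun c _ => ENNReal.summable)]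
  refine tsum_congr fun j => ?_
  rw [Finset.mul_sum]

theorem sum_out1 {ι : Type} [Fintype ι] (C : ℝ≥0∞) (x : ℕ → ℝ≥0∞) (Z : ι → ℕ → ℝ≥0∞) :
    ∑ c, C * ∑' j, x j * Z c j = ∑' j, C * (x j * ∑ c, Z c j) := by
  rw [← Finset.mul_sum, ← Summable.tsum_finsetSum (fun c _ => ENNReal.summable),
    ← ENNReal.tsum_mul_left]
  refine tsum_congr fun j => ?_
  rw [← Finset.mul_sum]

theorem fin_out {κ : Type} (S : Finset κ) (W e C : ℝ≥0∞) (w : κ → ℝ≥0∞)
    (x : ℕ → ℝ≥0∞) (Z : κ → ℕ → ℝ≥0∞) (T : ℕ → ℝ≥0∞)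
    (h : ∀ i ∈ S, ∀ j, W * (e * (C * (w i * (x j * Z i j)))) ≤ T j) :
    W * (e * (C * ∑ i ∈ S, w i * ∑' j, x j * Z i j)) ≤ S.card * ∑' j, T j := by
  have h1 : W * (e * (C * ∑ i ∈ S, w i * ∑' j, x j * Z i j)) =
      ∑ i ∈ S, ∑' j, W * (e * (C * (w i * (x j * Z i j)))) := by
    rw [Finset.mul_sum, Finset.mul_sum, Finset.mul_sum]
    refine Finset.sum_congr rfl fun i _ => ?_
    rw [ENNReal.tsum_mul_left, ENNReal.tsum_mul_left, ENNReal.tsum_mul_left,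
      ENNReal.tsum_mul_left]
  rw [h1]
  refine (Finset.sum_le_sum fun i hi => ENNReal.tsum_le_tsum fun j => h i hi j).trans ?_
  rw [Finset.sum_const, nsmul_eq_mul]

open scoped Classical in
/-- the integral of the pointwise bound -/
theorem point_bound {K : Type} [Field K] [NumberField K] (hZN : U_ZN) (M : FI K)
    (cp : InfinitePlace K → ℂ) (H : InfinitePlace K → ℝ) (p : InfinitePlace K → ℂ → ℂ)
    (hpm : ∀ v, Measurable (p v)) (s : Bool) (τ₁ : ℝ) {j k : Ideal (𝓞 K)} (hj : j ≠ ⊥)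
    (hk : k ≠ ⊥) (hM : M ≠ 0) (q : K → ℂ) (X₁ : Finset K) (A : ℕ) (W₀ : ℝ) (hW₀ : 0 ≤ W₀)
    (hQ : ∀ (y : InfinitePlace K → ℝ) (ω : InfinitePlace K → ℂ), Pos ω →
      ∑ r ∈ X₁, ENNReal.ofReal (‖Sq j M q r cp H p y ω‖ ^ 2) ≤
      ∑' x : {x : K // x ∈ M}, ENNReal.ofReal (‖Wg cp H p x y ω‖ ^ 2) +
      ENNReal.ofReal (W₀ * (Real.exp (-(∑ v, (v.mult : ℝ) * y v) / 2) *
          (cv K (((k ^ 2 : Ideal (𝓞 K)) : FI K) * M))⁻¹)) *
        ∑ e ∈ dvs K k, ENNReal.ofReal (Nf K e) *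
          ∑' h : {h : K // h ∈ ((j * e : Ideal (𝓞 K)) : FI K) * M ∧ h ≠ 0},
            ∑' y' : {y' : K // y' ∈ du K (((k ^ 2 : Ideal (𝓞 K)) : FI K) * M)},
              ENNReal.ofReal (Amb A cp H h y' y ω)) :
    ∫⁻ z in Fd K, ∫⁻ τ in Icc τ₁ (τ₁ + 1), ∫⁻ θ in An K, ∑ r ∈ X₁,
      ENNReal.ofReal (‖Sq j M q r cp H p (yM K M τ (zs s z)) (om s θ)‖ ^ 2) ≤
      (∫⁻ z in Fd K, ∫⁻ τ in Icc τ₁ (τ₁ + 1), ∫⁻ θ in An K,
        DS M cp H p (yM K M τ z) (om s θ)) +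
      ENNReal.ofReal (W₀ * (Real.exp (-τ₁) / (√|(discr K : ℝ)| * Nf K k ^ 2))) *
        ∑ e ∈ dvs K k, ENNReal.ofReal (Nf K e) *
        ∫⁻ z in Fd K, ∫⁻ τ in Icc τ₁ (τ₁ + 1), ∫⁻ θ in An K,
          PS (((j * e : Ideal (𝓞 K)) : FI K) * M)
            (du K (((k ^ 2 : Ideal (𝓞 K)) : FI K) * M)) A cp H
            (yM K M τ z) (om s θ) := by
  have hnk := one_le_Nf' hk
  have hsd : 1 ≤ √|(discr K : ℝ)| := one_le_sqrt_disc
  set W : ℝ := W₀ * (Real.exp (-τ₁) / (√|(discr K : ℝ)| * Nf K k ^ 2)) with hW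
  set GD : logSpace K × (ℝ × (InfinitePlace K → ℝ)) → ℝ≥0∞ := fun P =>
    DS M cp H p (yM K M P.2.1 (zs s P.1)) (om s P.2.2) with hGD
  set GP : Ideal (𝓞 K) → logSpace K × (ℝ × (InfinitePlace K → ℝ)) → ℝ≥0∞ := fun e P =>
    PS (((j * e : Ideal (𝓞 K)) : FI K) * M) (du K (((k ^ 2 : Ideal (𝓞 K)) : FI K) * M)) A cp H
      (yM K M P.2.1 (zs s P.1)) (om s P.2.2) with hGP
  have e1 := TI_comb τ₁ (τ₁ + 1) (dvs K k) (fun e => ENNReal.ofReal (Nf K e))
    (ENNReal.ofReal W) GD GP (measurable_DS' M cp H p hpm s)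
    (fun e => measurable_PS' _ _ M A cp H s)
  have e2 := TI_mono τ₁ (τ₁ + 1)
    (fun P => ∑ r ∈ X₁, ENNReal.ofReal (‖Sq j M q r cp H p
      (yM K M P.2.1 (zs s P.1)) (om s P.2.2)‖ ^ 2))
    (fun P => GD P + ENNReal.ofReal W * ∑ e ∈ dvs K k, ENNReal.ofReal (Nf K e) * GP e P)
    (fun z τ θ hτ => by
      have e3 := hQ (yM K M τ (zs s z)) (om s θ) (Pos_om s θ)
      rw [pref_eq hM hk] at e3
      refine e3.trans ?_
      refine add_le_add le_rfl (mul_le_mul' (ENNReal.ofReal_le_ofReal ?_) le_rfl)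
      rw [hW]
      refine mul_le_mul_of_nonneg_left ?_ hW₀
      refine div_le_div_of_nonneg_right (Real.exp_le_exp.2 ?_) (by positivity)
      have := hτ.1
      linarith)
  rw [e1] at e2
  have f1 : TI τ₁ (τ₁ + 1) GD = ∫⁻ z in Fd K, ∫⁻ τ in Icc τ₁ (τ₁ + 1), ∫⁻ θ in An K,
        DS M cp H p (yM K M τ z) (om s θ) := by
    unfold TI
    exact refl_DS hZN M cp H p hpm s τ₁ (τ₁ + 1)
  have f2 : ∀ e, TI τ₁ (τ₁ + 1) (GP e) = ∫⁻ z in Fd K, ∫⁻ τ in Icc τ₁ (τ₁ + 1), ∫⁻ θ in An K,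
          PS (((j * e : Ideal (𝓞 K)) : FI K) * M)
            (du K (((k ^ 2 : Ideal (𝓞 K)) : FI K) * M)) A cp H
            (yM K M τ z) (om s θ) := by
    intro e
    unfold TI
    exact refl_PS hZN _ _ M A cp H s τ₁ (τ₁ + 1)
  rw [f1] at e2
  simp only [f2] at e2
  unfold TI at e2
  exact e2

open scoped Classical in
/-- (TT) -/
theorem pf_TT (hQW : V_QW) (hAO : V_AO) (hDI : V_DI) (hCT : V_CT) (hZN : U_ZN)
    (hTH : T_TH) : V_TT := by
  intro n hn ε hε hε1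
  have hn0 : (0 : ℝ) < n := by exact_mod_cast hn
  obtain ⟨κ, hκ, hκε, hκn, hκ1⟩ : ∃ κ : ℝ, 0 < κ ∧ κ ≤ ε / 8 ∧ κ * n ≤ 1 ∧ κ ≤ 1 := by
    refine ⟨min (ε / 8) (1 / n), by positivity, min_le_left _ _, ?_, ?_⟩
    · calc min (ε / 8) (1 / n) * n ≤ (1 / n) * n :=
            mul_le_mul_of_nonneg_right (min_le_right _ _) hn0.le
        _ = 1 := by field_simp
    · refine (min_le_left _ _).trans ?_
      linarith
  obtain ⟨C1, hC1, hQW⟩ := hQW n (2 * n + 4) hn (by omega)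
  obtain ⟨C2, hC2, hAO⟩ := hAO n (2 * n + 4) hn (by omega)
  obtain ⟨C3, hC3, hDI⟩ := hDI n (2 * n + 4) hn (by omega)
  obtain ⟨C4, hC4, hCT⟩ := hCT n hn κ hκ hκ1
  refine ⟨2 * (27 * (C3 * C4)) + (8 / (ε / 4)) ^ n * (2 * (3 * 8 * 32 * 9 * 4 ^ n *
    (C1 * C2 * C4))), by positivity, ?_⟩
  intro K _ _ hK ι _ M hM j k D q X₁ cp H p B s τ₁ hj hk hD hq hX hPrm hB hp
  have hH : ∀ v, 1 ≤ H v := fun v => hPrm.one_le v
  have hct : CTK K κ C4 := hCT K hK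
  have hpm : ∀ v, Measurable (p v) := fun v => (hp v).continuous.measurable
  have hD0 : 0 ≤ D := by linarith
  have hB0 : 0 ≤ B := by linarith
  have hnj := one_le_Nf' hj
  have hnk := one_le_Nf' hk
  have hh : 1 ≤ HH H := one_le_HH hH
  have hd : 1 ≤ |(discr K : ℝ)| := one_le_disc
  have hsd : 1 ≤ √|(discr K : ℝ)| := one_le_sqrt_disc
  have hcw : 0 ≤ cw K := cw_nn
  set W : ℝ := C1 * B ^ (2 * n) * (HH H)⁻¹ * (D * Nf K k) *
    (Real.exp (-τ₁) / (√|(discr K : ℝ)| * Nf K k ^ 2)) with hW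
  have hW0 : 0 ≤ W := by positivity
  set A : ℕ := 2 * n + 4 with hA
  -- step 1: the pointwise bound
  have h1 : ∀ c, ∫⁻ z in Fd K, ∫⁻ τ in Icc τ₁ (τ₁ + 1), ∫⁻ θ in An K, ∑ r ∈ X₁ c,
      ENNReal.ofReal (‖Sq j (M c) (q c) r cp H p (yM K (M c) τ (zs s z)) (om s θ)‖ ^ 2) ≤
      (∫⁻ z in Fd K, ∫⁻ τ in Icc τ₁ (τ₁ + 1), ∫⁻ θ in An K,
        DS (M c) cp H p (yM K (M c) τ z) (om s θ)) +
      ENNReal.ofReal W * ∑ e ∈ dvs K k, ENNReal.ofReal (Nf K e) *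
        ∫⁻ z in Fd K, ∫⁻ τ in Icc τ₁ (τ₁ + 1), ∫⁻ θ in An K,
          PS (((j * e : Ideal (𝓞 K)) : FI K) * M c)
            (du K (((k ^ 2 : Ideal (𝓞 K)) : FI K) * M c)) A cp H
            (yM K (M c) τ z) (om s θ) := by
    intro c
    refine point_bound hZN (M c) cp H p hpm s τ₁ hj hk (hM.1 c) (q c) (X₁ c) A
      (C1 * B ^ (2 * n) * (HH H)⁻¹ * (D * Nf K k)) (by positivity) (fun y ω hω => ?_)
    exact hQW K hK j k (M c) (q c) D (X₁ c) cp H p B hj hk (hM.1 c) hD0 (hq c) (hX c)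
        hPrm hB hp y ω hω
  -- the diagonal
  have h2 : ∑ c, ∫⁻ z in Fd K, ∫⁻ τ in Icc τ₁ (τ₁ + 1), ∫⁻ θ in An K,
      DS (M c) cp H p (yM K (M c) τ z) (om s θ) ≤
      ENNReal.ofReal (2 * ((27 * (C3 * C4)) * (B ^ (2 * n) * cw K *
        (|(discr K : ℝ)| ^ (κ / 2) * (Real.exp |τ₁|) ^ κ) *
          (Real.exp (-τ₁) * (HH H)⁻¹)))) := by
    have e1 : ∀ c, ∫⁻ z in Fd K, ∫⁻ τ in Icc τ₁ (τ₁ + 1), ∫⁻ θ in An K,
        DS (M c) cp H p (yM K (M c) τ z) (om s θ) ≤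
        ENNReal.ofReal (C3 * B ^ (2 * n) * (HH H)⁻¹) *
        ∑' j : ℕ, ENNReal.ofReal ((2 : ℝ) ^ (-((A * j : ℕ) : ℝ))) *
          ∫⁻ z in Fd K, ∫⁻ τ in Icc (τ₁ - 1) (τ₁ + 2), ENNReal.ofReal
            (th K (M c) (fun v => yM K (M c) τ z v - 2 * Real.log (2 ^ j)) - 1) := by
      intro c
      exact hDI K hK (M c) cp H p B s τ₁ (hM.1 c) hPrm hB
        (fun v => (hp v).mono (Nat.zero_le _) le_rfl)
    have e3 := (Finset.sum_le_sum fun c (_ : c ∈ (Finset.univ : Finset ι)) => e1 c)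
    rw [sum_out1] at e3
    refine e3.trans ?_
    set T1 : ℝ := (27 * (C3 * C4)) * (B ^ (2 * n) * cw K *
        (|(discr K : ℝ)| ^ (κ / 2) * (Real.exp |τ₁|) ^ κ) *
          (Real.exp (-τ₁) * (HH H)⁻¹)) with hT1
    have hT10 : 0 ≤ T1 := by positivity
    refine le_trans (ENNReal.tsum_le_tsum fun jj => ?_) (tsum_quarter T1 hT10)
    have e2 := diag_ct hK hκ hC4 hct hTH M hM jj τ₁
    refine (mul_le_mul' le_rfl (mul_le_mul' le_rfl e2)).trans ?_
    have e4 : 0 ≤ C3 * B ^ (2 * n) * (HH H)⁻¹ := by positivity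
    have e5 : (0 : ℝ) ≤ (2 : ℝ) ^ (-((A * jj : ℕ) : ℝ)) := by positivity
    rw [← ENNReal.ofReal_mul e5, ← ENNReal.ofReal_mul e4]
    exact ENNReal.ofReal_le_ofReal (real_diag hn hκ hκ1 hκn jj hd hh hC3 hC4 (by positivity) hcw)
  -- the pairs
  set T2 : ℝ := (3 * 8 * 32 * 9 * 4 ^ n * (C1 * C2 * C4)) * (B ^ (2 * n) * cw K * D *
    (|(discr K : ℝ)| ^ (κ / 2) * (HH H * Nf K j * Nf K k) ^ (2 * κ)) *
      (Real.exp (-τ₁) * (HH H)⁻¹ * (1 + Nf K k / Nf K j + Real.exp (-τ₁) * (HH H ^ 2)⁻¹ /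
        (√|(discr K : ℝ)| * Nf K j * Nf K k)))) with hT2
  have hT20 : 0 ≤ T2 := by positivity
  set Ix := Fintype.piFinset (fun v : InfinitePlace K => Finset.range (nH (H v) + 1)) with hIx
  have h3 : ∀ e ∈ dvs K k, ENNReal.ofReal W * (ENNReal.ofReal (Nf K e) *
      ∑ c, ∫⁻ z in Fd K, ∫⁻ τ in Icc τ₁ (τ₁ + 1), ∫⁻ θ in An K,
          PS (((j * e : Ideal (𝓞 K)) : FI K) * M c)
            (du K (((k ^ 2 : Ideal (𝓞 K)) : FI K) * M c)) A cp H
            (yM K (M c) τ z) (om s θ)) ≤ Ix.card * ENNReal.ofReal (2 * T2) := by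
    intro e he
    obtain ⟨he0, hek⟩ := Nf_dvs hk he
    have hne := one_le_Nf' he0
    have e1 : ∀ c, ∫⁻ z in Fd K, ∫⁻ τ in Icc τ₁ (τ₁ + 1), ∫⁻ θ in An K,
          PS (((j * e : Ideal (𝓞 K)) : FI K) * M c)
            (du K (((k ^ 2 : Ideal (𝓞 K)) : FI K) * M c)) A cp H
            (yM K (M c) τ z) (om s θ) ≤
        ENNReal.ofReal C2 * ∑ i ∈ Ix,
          ENNReal.ofReal (∏ v : InfinitePlace K, (2 : ℝ) ^ (-((i v * v.mult : ℕ) : ℝ))) *
          ∑' jj : ℕ, ENNReal.ofReal ((2 : ℝ) ^ (-((A * jj : ℕ) : ℝ))) *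
            ∫⁻ z in Fd K, ∫⁻ τ in Icc (τ₁ - 1) (τ₁ + 2), ENNReal.ofReal
              ((th K (((j * e : Ideal (𝓞 K)) : FI K) * M c)
                (fun v => yM K (M c) τ z v - 2 * Real.log (2 ^ (i v + jj) / H v ^ 2)) - 1) *
                th K (du K (((k ^ 2 : Ideal (𝓞 K)) : FI K) * M c))
                  (fun v => -yM K (M c) τ z v - 2 * Real.log (2 ^ (i v + jj) * H v))) := by
      intro c
      have hje : ((j * e : Ideal (𝓞 K)) : FI K) * M c ≠ 0 :=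
        mul_ne_zero (FractionalIdeal.coeIdeal_ne_zero.2 (mul_ne_zero hj he0)) (hM.1 c)
      have hk2 : ((k ^ 2 : Ideal (𝓞 K)) : FI K) * M c ≠ 0 :=
        mul_ne_zero (FractionalIdeal.coeIdeal_ne_zero.2 (pow_ne_zero 2 hk)) (hM.1 c)
      exact hAO K hK _ _ (M c) cp H s τ₁ hje (FractionalIdeal.dual_ne_zero ℤ ℚ hk2) (hM.1 c) hPrm
    have e2 := (Finset.sum_le_sum fun c (_ : c ∈ (Finset.univ : Finset ι)) => e1 c)
    rw [sum_out] at e2
    refine (mul_le_mul' le_rfl (mul_le_mul' le_rfl e2)).trans ?_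
    refine (fin_out Ix _ _ _ _ _ _ (fun jj => ENNReal.ofReal (T2 * (1 / 4) ^ jj)) ?_).trans
      (mul_le_mul' le_rfl (tsum_quarter T2 hT20))
    intro i hi jj
    have hi2 : ∀ v, i v ≤ nH (H v) := by
      intro v
      have := Fintype.mem_piFinset.1 hi v
      rw [Finset.mem_range] at this
      omega
    have e3 := pair_ct hK hκ hC4 hct hTH M hM hj hk he0 hH i jj τ₁
    refine (mul_le_mul' le_rfl (mul_le_mul' le_rfl (mul_le_mul' le_rfl (mul_le_mul' le_rfl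
      (mul_le_mul' le_rfl e3))))).trans ?_
    have hP := one_le_PP i
    have hP0 : 0 ≤ (PP i)⁻¹ := by positivity
    rw [PP_inv, ← ENNReal.ofReal_mul (by positivity), ← ENNReal.ofReal_mul hP0,
      ← ENNReal.ofReal_mul hC2, ← ENNReal.ofReal_mul (by linarith), ← ENNReal.ofReal_mul hW0]
    exact ENNReal.ofReal_le_ofReal (real_main hn hκ hκn jj hd hnj hne hnk hek hh hP
      (PP_le hK hH i hi2) hC1 hC2 hC4 (by positivity) hD0 hcw)
  -- the sum
  have h4 : ∑ c, ∫⁻ z in Fd K, ∫⁻ τ in Icc τ₁ (τ₁ + 1), ∫⁻ θ in An K, ∑ r ∈ X₁ c,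
      ENNReal.ofReal (‖Sq j (M c) (q c) r cp H p (yM K (M c) τ (zs s z)) (om s θ)‖ ^ 2) ≤
      ENNReal.ofReal (2 * ((27 * (C3 * C4)) * (B ^ (2 * n) * cw K *
        (|(discr K : ℝ)| ^ (κ / 2) * (Real.exp |τ₁|) ^ κ) *
          (Real.exp (-τ₁) * (HH H)⁻¹)))) +
      (dvs K k).card * (Ix.card * ENNReal.ofReal (2 * T2)) := by
    refine (Finset.sum_le_sum fun c _ => h1 c).trans ?_
    rw [Finset.sum_add_distrib]
    refine add_le_add h2 ?_
    rw [← Finset.mul_sum, Finset.sum_comm, Finset.mul_sum]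
    refine le_trans (Finset.sum_le_sum fun e he => ?_)
      (le_of_eq (by rw [Finset.sum_const, nsmul_eq_mul]))
    rw [← Finset.mul_sum]
    exact h3 e he
  refine h4.trans ?_
  have e5 : ((dvs K k).card : ℝ≥0∞) * (Ix.card * ENNReal.ofReal (2 * T2)) =
      ENNReal.ofReal ((dvs K k).card * (Ix.card * (2 * T2))) := by
    rw [ENNReal.ofReal_mul (Nat.cast_nonneg _), ENNReal.ofReal_mul (Nat.cast_nonneg _),
      ENNReal.ofReal_natCast, ENNReal.ofReal_natCast]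
  rw [e5, ← ENNReal.ofReal_add (by positivity) (by positivity)]
  refine ENNReal.ofReal_le_ofReal ?_
  have hcard := card_scales hK hH (δ := ε / 4) (by positivity) (by linarith)
  rw [← hIx] at hcard
  have hcd : (1 : ℝ) ≤ (dvs K k).card := one_le_card_dvs hk
  have hT1 : 1 ≤ Real.exp |τ₁| := Real.one_le_exp (abs_nonneg _)
  obtain ⟨s1, s2⟩ := small_le (h := HH H) (T := Real.exp |τ₁|) hε hκ hκε hd hnj hnk hh hT1
  set S : ℝ := (|(discr K : ℝ)| * Nf K j * Nf K k * HH H * Real.exp |τ₁|) ^ ε with hS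
  have hS0 : 0 ≤ S := by positivity
  set Br : ℝ := 1 + Nf K k / Nf K j + Real.exp (-τ₁) * (HH H ^ 2)⁻¹ /
        (√|(discr K : ℝ)| * Nf K j * Nf K k) with hBr
  have hBr1 : 1 ≤ Br := by
    have g1 : 0 ≤ Nf K k / Nf K j := by positivity
    have g2 : 0 ≤ Real.exp (-τ₁) * (HH H ^ 2)⁻¹ / (√|(discr K : ℝ)| * Nf K j * Nf K k) := by
      positivity
    linarith
  set Q : ℝ := Real.exp (-τ₁) * (HH H)⁻¹ with hQ
  have hQ0 : 0 ≤ Q := by positivity
  have hBB0 : 0 ≤ B ^ (2 * n) := by positivity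
  have hcD : 1 ≤ (dvs K k).card * D := one_le_mul_of_one_le_of_one_le hcd hD
  have r1 : 2 * ((27 * (C3 * C4)) * (B ^ (2 * n) * cw K *
        (|(discr K : ℝ)| ^ (κ / 2) * (Real.exp |τ₁|) ^ κ) * Q)) ≤
      (2 * (27 * (C3 * C4))) * (B ^ (2 * n) * cw K * ((dvs K k).card * D) * S * (Q * Br)) := by
    have g0 : 0 ≤ B ^ (2 * n) * cw K := by positivity
    have g1 : B ^ (2 * n) * cw K * (|(discr K : ℝ)| ^ (κ / 2) * (Real.exp |τ₁|) ^ κ) * Q ≤
        B ^ (2 * n) * cw K * S * Q :=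
      mul_le_mul_of_nonneg_right (mul_le_mul_of_nonneg_left s2 g0) hQ0
    have g2 : B ^ (2 * n) * cw K * S * Q ≤
        (B ^ (2 * n) * cw K * S * Q) * (((dvs K k).card * D) * Br) :=
      le_mul_of_one_le_right (by positivity) (one_le_mul_of_one_le_of_one_le hcD hBr1)
    have g3 := mul_le_mul_of_nonneg_left (g1.trans g2)
      (by positivity : (0 : ℝ) ≤ 2 * (27 * (C3 * C4)))
    refine le_trans (le_of_eq (by ring)) (g3.trans (le_of_eq (by ring)))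
  have r2 : (dvs K k).card * (Ix.card * (2 * T2)) ≤
      ((8 / (ε / 4)) ^ n * (2 * (3 * 8 * 32 * 9 * 4 ^ n * (C1 * C2 * C4)))) *
        (B ^ (2 * n) * cw K * ((dvs K k).card * D) * S * (Q * Br)) := by
    have g1 : (Ix.card : ℝ) * (2 * T2) ≤ ((8 / (ε / 4)) ^ n * HH H ^ (ε / 4)) * (2 * T2) :=
      mul_le_mul_of_nonneg_right hcard (by positivity)
    have g2 := mul_le_mul_of_nonneg_left g1 (by linarith : (0 : ℝ) ≤ (dvs K k).card)
    refine g2.trans ?_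
    have g3 : (dvs K k).card * (((8 / (ε / 4)) ^ n * HH H ^ (ε / 4)) * (2 * T2)) =
        ((8 / (ε / 4)) ^ n * (2 * (3 * 8 * 32 * 9 * 4 ^ n * (C1 * C2 * C4)))) *
        (B ^ (2 * n) * cw K * ((dvs K k).card * D) * (|(discr K : ℝ)| ^ (κ / 2) *
          (HH H * Nf K j * Nf K k) ^ (2 * κ) * HH H ^ (ε / 4)) * (Q * Br)) := by
      rw [hT2]
      ring
    rw [g3]
    refine mul_le_mul_of_nonneg_left ?_ (by positivity)
    refine mul_le_mul_of_nonneg_right ?_ (by positivity)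
    exact mul_le_mul_of_nonneg_left s1 (by positivity)
  refine (add_le_add r1 r2).trans (le_of_eq ?_)
  ring

end Pool.Agent.H16.DW
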