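import Pool.Agent.H16.DW.Rot
import Pool.Agent.H87.HK.CT
import Pool.Agent.H29.THC.DFV

/-!
# The hybrid Weyl bound: the mean square for a system of representatives, part 1
-/

set_option autoImplicit false
set_option linter.unusedSectionVars false
set_option linter.unusedVariables false

open NumberField NumberField.InfinitePlace NumberField.Units
  NumberField.Units.dirichletUnitTheorem MeasureTheory Set Filter Complex
open scoped nonZeroDivisors ENNReal

namespace Pool.Agent.H16.DW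

open Pool.Agent.H25.HK Pool.Agent.H23.LB Pool.Agent.H23.LC Pool.Agent.H29.DW
open Pool.Agent.H28.RC (Rep ft idl)
open Pool.Agent.H29.TC (GK fk_le dvs)

section NF

variable {K : Type} [Field K] [NumberField K]

/-! ### Norms -/

theorem one_le_Nf' {f : Ideal (𝓞 K)} (hf : f ≠ ⊥) : 1 ≤ Nf K f := by
  unfold Nf
  have h1 : Ideal.absNorm f ≠ 0 := fun h => hf (Ideal.absNorm_eq_zero_iff.1 h)
  exact_mod_cast Nat.one_le_iff_ne_zero.2 h1

theorem Nf_mul' (f g : Ideal (𝓞 K)) : Nf K (f * g) = Nf K f * Nf K g := by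
  unfold Nf
  rw [map_mul]
  push_cast
  rfl

theorem Nf_pow' (f : Ideal (𝓞 K)) (m : ℕ) : Nf K (f ^ m) = Nf K f ^ m := by
  unfold Nf
  rw [map_pow]
  push_cast
  rfl

theorem Nf_top' : Nf K (⊤ : Ideal (𝓞 K)) = 1 := by
  unfold Nf
  rw [← Ideal.one_eq_top, map_one]
  simp

theorem Nf_dvs {k e : Ideal (𝓞 K)} (hk : k ≠ ⊥) (he : e ∈ dvs K k) :
    e ≠ ⊥ ∧ Nf K e ≤ Nf K k := by
  have h1 : k ≤ e := (Pool.Agent.H29.THC.pf_DF K k hk e).1 he
  have h2 : e ≠ ⊥ := by
    rintro rfl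
    exact hk (le_bot_iff.1 h1)
  refine ⟨h2, ?_⟩
  have h3 : e ∣ k := Ideal.dvd_iff_le.2 h1
  obtain ⟨m, rfl⟩ := h3
  have hm : m ≠ ⊥ := by
    rintro rfl
    exact hk (Ideal.mul_bot e)
  rw [Nf_mul']
  have h4 := one_le_Nf' h2
  have h5 := one_le_Nf' hm
  nlinarith

theorem one_le_card_dvs {k : Ideal (𝓞 K)} (hk : k ≠ ⊥) : (1 : ℝ) ≤ (dvs K k).card := by
  have h1 : (⊤ : Ideal (𝓞 K)) ∈ dvs K k := (Pool.Agent.H29.THC.pf_DF K k hk ⊤).2 le_top
  have h2 : 1 ≤ (dvs K k).card := Finset.card_pos.2 ⟨⊤, h1⟩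
  exact_mod_cast h2

theorem one_le_disc : (1 : ℝ) ≤ |(discr K : ℝ)| := by
  have h1 : discr K ≠ 0 := discr_ne_zero K
  have h2 : 1 ≤ |discr K| := Int.one_le_abs h1
  exact_mod_cast h2

theorem one_le_sqrt_disc : (1 : ℝ) ≤ Real.sqrt |(discr K : ℝ)| := by
  rw [Real.one_le_sqrt]
  exact one_le_disc

theorem nM_pos {M : FI K} (hM : M ≠ 0) : 0 < (FractionalIdeal.absNorm M : ℝ) := by
  have h1 : FractionalIdeal.absNorm M ≠ 0 := by
    rw [Ne, FractionalIdeal.absNorm_eq_zero_iff]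
    exact hM
  have h2 : 0 ≤ FractionalIdeal.absNorm M := FractionalIdeal.absNorm_nonneg M
  exact_mod_cast lt_of_le_of_ne h2 (Ne.symm h1)

theorem cv_mul' (j : Ideal (𝓞 K)) (M : FI K) : cv K ((j : FI K) * M) =
    Real.sqrt |(discr K : ℝ)| * Nf K j * (FractionalIdeal.absNorm M : ℝ) := by
  unfold cv Nf
  rw [map_mul, FractionalIdeal.coeIdeal_absNorm]
  push_cast
  ring

theorem sum_yM (M : FI K) (τ : ℝ) (z : logSpace K) :
    ∑ v, (v.mult : ℝ) * yM K M τ z v = 2 * (τ - Real.log (FractionalIdeal.absNorm M : ℝ)) := by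
  unfold yM
  exact (Pool.Agent.H87.HK.yc_main K).1 _ z

theorem exp_sum_log (w : InfinitePlace K → ℝ) (hw : ∀ v, 0 < w v) :
    Real.exp (∑ v, (v.mult : ℝ) * Real.log (w v)) = ∏ v, w v ^ v.mult := by
  rw [Real.exp_sum]
  refine Finset.prod_congr rfl fun v _ => ?_
  rw [Real.exp_nat_mul, Real.exp_log (hw v)]

/-- the prefactor of the Poisson summation -/
theorem pref_eq {M : FI K} (hM : M ≠ 0) {k : Ideal (𝓞 K)} (hk : k ≠ ⊥) (τ : ℝ)
    (z : logSpace K) :
    Real.exp (-(∑ v, (v.mult : ℝ) * yM K M τ z v) / 2) *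
      (cv K (((k ^ 2 : Ideal (𝓞 K)) : FI K) * M))⁻¹ =
    Real.exp (-τ) / (Real.sqrt |(discr K : ℝ)| * Nf K k ^ 2) := by
  have h1 := nM_pos hM
  have h2 := one_le_Nf' hk
  have h3 := one_le_sqrt_disc (K := K)
  rw [sum_yM, cv_mul', Nf_pow', show -(2 * (τ - Real.log (FractionalIdeal.absNorm M : ℝ))) / 2 =
    -τ + Real.log (FractionalIdeal.absNorm M : ℝ) by ring, Real.exp_add, Real.exp_log h1]
  field_simp

/-- theta inversion -/
theorem th_inv (hTH : T_TH) {M : FI K} (hM : M ≠ 0) {k : Ideal (𝓞 K)} (hk : k ≠ ⊥) (τ : ℝ)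
    (z : logSpace K) (w : InfinitePlace K → ℝ) (hw : ∀ v, 0 < w v) :
    th K (du K (((k ^ 2 : Ideal (𝓞 K)) : FI K) * M))
      (fun v => -yM K M τ z v - 2 * Real.log (w v)) =
    (Real.exp τ * (Real.sqrt |(discr K : ℝ)| * Nf K k ^ 2 * ∏ v, w v ^ v.mult)) *
      th K (((k ^ 2 : Ideal (𝓞 K)) : FI K) * M)
        (fun v => yM K M τ z v + 2 * Real.log (w v)) := by
  have hk2 : ((k ^ 2 : Ideal (𝓞 K)) : FI K) ≠ 0 :=
    FractionalIdeal.coeIdeal_ne_zero.2 (pow_ne_zero 2 hk)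
  have hN : ((k ^ 2 : Ideal (𝓞 K)) : FI K) * M ≠ 0 := mul_ne_zero hk2 hM
  have h0 := (hTH K _ hN (fun v => yM K M τ z v + 2 * Real.log (w v))).2
  have e1 : (-(fun v => yM K M τ z v + 2 * Real.log (w v)) : InfinitePlace K → ℝ) =
      fun v => -yM K M τ z v - 2 * Real.log (w v) := by
    funext v
    rw [Pi.neg_apply]
    ring
  have e2 : ∑ v, (v.mult : ℝ) * (yM K M τ z v + 2 * Real.log (w v)) =
      2 * (τ - Real.log (FractionalIdeal.absNorm M : ℝ)) +
        2 * ∑ v, (v.mult : ℝ) * Real.log (w v) := by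
    rw [← sum_yM M τ z, Finset.mul_sum, ← Finset.sum_add_distrib]
    exact Finset.sum_congr rfl fun v _ => by ring
  have h1 := nM_pos hM
  have h2 := one_le_Nf' hk
  have h3 := one_le_sqrt_disc (K := K)
  have h4 : 0 < ∏ v, w v ^ v.mult := Finset.prod_pos fun v _ => pow_pos (hw v) _
  have e3 : Real.exp (-(∑ v, (v.mult : ℝ) * (yM K M τ z v + 2 * Real.log (w v))) / 2) =
      Real.exp (-τ) * (FractionalIdeal.absNorm M : ℝ) * (∏ v, w v ^ v.mult)⁻¹ := by
    rw [e2, show -(2 * (τ - Real.log (FractionalIdeal.absNorm M : ℝ)) +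
        2 * ∑ v, (v.mult : ℝ) * Real.log (w v)) / 2 =
      -τ + Real.log (FractionalIdeal.absNorm M : ℝ) +
        -(∑ v, (v.mult : ℝ) * Real.log (w v)) by ring, Real.exp_add, Real.exp_add,
      Real.exp_log h1, Real.exp_neg (∑ v, (v.mult : ℝ) * Real.log (w v)), exp_sum_log w hw]
  rw [e1, e3, cv_mul', Nf_pow'] at h0
  rw [h0, Real.exp_neg]
  have h5 := Real.exp_pos τ
  field_simp

/-! ### The volume parameter -/

theorem VV_neg (j : Ideal (𝓞 K)) (w : InfinitePlace K → ℝ) (hw : ∀ v, 0 < w v) (τ : ℝ) :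
    VV K j (fun v => -(2 * Real.log (w v))) τ =
      Real.exp (-τ) * ((∏ v, w v ^ v.mult) / (Real.sqrt |(discr K : ℝ)| * Nf K j)) := by
  unfold VV
  have e2 : -τ - (∑ v, (v.mult : ℝ) * -(2 * Real.log (w v))) / 2 =
      -τ + ∑ v, (v.mult : ℝ) * Real.log (w v) := by
    have : ∑ v, (v.mult : ℝ) * -(2 * Real.log (w v)) =
        -2 * ∑ v, (v.mult : ℝ) * Real.log (w v) := by
      rw [Finset.mul_sum]
      exact Finset.sum_congr rfl fun v _ => by ring
    rw [this]
    ring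
  rw [e2, Real.exp_add, exp_sum_log w hw]
  ring

theorem VV_pos (j : Ideal (𝓞 K)) (w : InfinitePlace K → ℝ) (hw : ∀ v, 0 < w v) (τ : ℝ) :
    VV K j (fun v => 2 * Real.log (w v)) τ =
      Real.exp (-τ) * ((∏ v, w v ^ v.mult)⁻¹ / (Real.sqrt |(discr K : ℝ)| * Nf K j)) := by
  unfold VV
  have e2 : -τ - (∑ v, (v.mult : ℝ) * (2 * Real.log (w v))) / 2 =
      -τ + -(∑ v, (v.mult : ℝ) * Real.log (w v)) := by
    have : ∑ v, (v.mult : ℝ) * (2 * Real.log (w v)) =
        2 * ∑ v, (v.mult : ℝ) * Real.log (w v) := by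
      rw [Finset.mul_sum]
      exact Finset.sum_congr rfl fun v _ => by ring
    rw [this]
    ring
  rw [e2, Real.exp_add, Real.exp_neg (∑ v, (v.mult : ℝ) * Real.log (w v)), exp_sum_log w hw]
  ring

/-! ### Measurability of the theta functions -/

theorem th_cont (hTH : T_TH) (L M : FI K) (hL : L ≠ 0) (a : InfinitePlace K → ℝ) :
    Continuous (fun p : logSpace K × ℝ => th K L (fun v => yM K M p.2 p.1 v + a v)) := by
  have h1 : Continuous (th K L) := Pool.Agent.H87.HK.ct hTH K L hL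
  have h2 : Continuous (fun p : logSpace K × ℝ => (fun v => yM K M p.2 p.1 v + a v)) := by
    refine continuous_pi fun v => ?_
    exact ((continuous_apply v).comp (continuous_yM M)).add continuous_const
  exact h1.comp h2

open scoped Classical in
/-- interchange of the integrals and the sum -/
theorem swap_sum {ι : Type} [Fintype ι] (G : ι → logSpace K × ℝ → ℝ≥0∞)
    (hG : ∀ c, Measurable (G c)) (a b : ℝ) (R : ℝ≥0∞)
    (h : ∀ τ ∈ Icc a b, ∑ c, ∫⁻ z in Fd K, G c (z, τ) ≤ R) :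
    ∑ c, ∫⁻ z in Fd K, ∫⁻ τ in Icc a b, G c (z, τ) ≤ R * ENNReal.ofReal (b - a) := by
  have h1 : ∀ c, ∫⁻ z in Fd K, ∫⁻ τ in Icc a b, G c (z, τ) =
      ∫⁻ τ in Icc a b, ∫⁻ z in Fd K, G c (z, τ) := by
    intro c
    exact lintegral_lintegral_swap (f := fun z τ => G c (z, τ)) (hG c).aemeasurable
  have h2 : ∀ c, Measurable (fun τ : ℝ => ∫⁻ z in Fd K, G c (z, τ)) := by
    intro c
    exact (hG c).lintegral_prod_left'
  simp only [h1]
  rw [← lintegral_finsetSum _ (fun c _ => h2 c)]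
  refine (setLIntegral_mono' measurableSet_Icc h).trans ?_
  rw [setLIntegral_const, Real.volume_Icc]

/-! ### Triple integrals -/

open scoped Classical in
/-- the triple integral -/
noncomputable def TI (a b : ℝ) (G : logSpace K × (ℝ × (InfinitePlace K → ℝ)) → ℝ≥0∞) : ℝ≥0∞ :=
  ∫⁻ z in Fd K, ∫⁻ τ in Icc a b, ∫⁻ θ in An K, G (z, τ, θ)

open scoped Classical in
/-- the measure -/
noncomputable def mT (K : Type) [Field K] [NumberField K] (a b : ℝ) :
    Measure (logSpace K × (ℝ × (InfinitePlace K → ℝ))) :=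
  ((volume : Measure (logSpace K)).restrict (Fd K)).prod
    (((volume : Measure ℝ).restrict (Icc a b)).prod
      ((volume : Measure (InfinitePlace K → ℝ)).restrict (An K)))

open scoped Classical in
theorem TI_eq (a b : ℝ) (G : logSpace K × (ℝ × (InfinitePlace K → ℝ)) → ℝ≥0∞)
    (hG : Measurable G) : TI a b G = ∫⁻ p, G p ∂(mT K a b) := by
  unfold TI mT
  rw [lintegral_prod _ hG.aemeasurable]
  refine lintegral_congr fun z => ?_
  have h1 : Measurable (fun q : ℝ × (InfinitePlace K → ℝ) => G (z, q)) :=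
    hG.comp measurable_prodMk_left
  rw [lintegral_prod _ h1.aemeasurable]

theorem TI_mono (a b : ℝ) (G G' : logSpace K × (ℝ × (InfinitePlace K → ℝ)) → ℝ≥0∞)
    (h : ∀ z τ θ, τ ∈ Icc a b → G (z, τ, θ) ≤ G' (z, τ, θ)) : TI a b G ≤ TI a b G' := by
  unfold TI
  refine lintegral_mono fun z => ?_
  refine setLIntegral_mono' measurableSet_Icc fun τ hτ => ?_
  exact lintegral_mono fun θ => h z τ θ hτ

theorem TI_comb (a b : ℝ) {κ : Type} (S : Finset κ) (u : κ → ℝ≥0∞) (c : ℝ≥0∞)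
    (G₀ : logSpace K × (ℝ × (InfinitePlace K → ℝ)) → ℝ≥0∞)
    (G : κ → logSpace K × (ℝ × (InfinitePlace K → ℝ)) → ℝ≥0∞)
    (h₀ : Measurable G₀) (h : ∀ e, Measurable (G e)) :
    TI a b (fun p => G₀ p + c * ∑ e ∈ S, u e * G e p) =
      TI a b G₀ + c * ∑ e ∈ S, u e * TI a b (G e) := by
  have hS : Measurable (fun p => ∑ e ∈ S, u e * G e p) :=
    Finset.measurable_sum _ fun e _ => (h e).const_mul _
  have hm : Measurable (fun p => G₀ p + c * ∑ e ∈ S, u e * G e p) := h₀.add (hS.const_mul _)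
  rw [TI_eq a b _ hm, TI_eq a b _ h₀]
  simp only [TI_eq a b _ (h _)]
  rw [lintegral_add_left h₀, lintegral_const_mul _ hS,
    lintegral_finsetSum _ (fun e _ => (h e).const_mul _)]
  congr 2
  refine Finset.sum_congr rfl fun e _ => ?_
  rw [lintegral_const_mul _ (h e)]

open scoped Classical in
/-- reflection -/
theorem refl_PS (hZN : U_ZN) (L₁ L₂ M : FI K) (A : ℕ) (cp : InfinitePlace K → ℂ)
    (H : InfinitePlace K → ℝ) (s : Bool) (a b : ℝ) :
    ∫⁻ z in Fd K, ∫⁻ τ in Icc a b, ∫⁻ θ in An K,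
      PS L₁ L₂ A cp H (yM K M τ (zs s z)) (om s θ) =
    ∫⁻ z in Fd K, ∫⁻ τ in Icc a b, ∫⁻ θ in An K,
      PS L₁ L₂ A cp H (yM K M τ z) (om s θ) := by
  cases s
  · have h1 : Measurable (fun z : logSpace K => ∫⁻ τ in Icc a b, ∫⁻ θ in An K,
        PS L₁ L₂ A cp H (yM K M τ z) (om false θ)) :=
      (amb_meas2 L₁ L₂ M A cp H false).lintegral_prod_right'
        (ν := (volume : Measure ℝ).restrict (Icc a b))
    exact hZN K _ h1 fun z l hl => lintegral_congr fun τ =>
      amb_per L₁ L₂ M A cp H false z τ l hl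
  · rfl

open scoped Classical in
/-- reflection -/
theorem refl_DS (hZN : U_ZN) (M : FI K) (cp : InfinitePlace K → ℂ)
    (H : InfinitePlace K → ℝ) (p : InfinitePlace K → ℂ → ℂ) (hp : ∀ v, Measurable (p v))
    (s : Bool) (a b : ℝ) :
    ∫⁻ z in Fd K, ∫⁻ τ in Icc a b, ∫⁻ θ in An K,
      DS M cp H p (yM K M τ (zs s z)) (om s θ) =
    ∫⁻ z in Fd K, ∫⁻ τ in Icc a b, ∫⁻ θ in An K,
      DS M cp H p (yM K M τ z) (om s θ) := by
  cases s
  · have h1 : Measurable (fun z : logSpace K => ∫⁻ τ in Icc a b, ∫⁻ θ in An K,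
        DS M cp H p (yM K M τ z) (om false θ)) :=
      (wg_meas2 M cp H p hp false).lintegral_prod_right'
        (ν := (volume : Measure ℝ).restrict (Icc a b))
    exact hZN K _ h1 fun z l hl => lintegral_congr fun τ =>
      wg_per M cp H p hp false z τ l hl
  · rfl

theorem measurable_pos' (M : FI K) (s : Bool) :
    Measurable (fun p : logSpace K × (ℝ × (InfinitePlace K → ℝ)) =>
      ((yM K M p.2.1 (zs s p.1), om s p.2.2) :
        (InfinitePlace K → ℝ) × (InfinitePlace K → ℂ))) := by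
  have hz : Measurable (fun p : logSpace K × (ℝ × (InfinitePlace K → ℝ)) => zs s p.1) := by
    cases s
    · exact measurable_fst.neg
    · exact measurable_fst
  have h1 : Measurable (fun p : logSpace K × (ℝ × (InfinitePlace K → ℝ)) =>
      ((zs s p.1, p.2.1) : logSpace K × ℝ)) :=
    hz.prodMk (measurable_fst.comp measurable_snd)
  have h2 : Measurable (fun p : logSpace K × (ℝ × (InfinitePlace K → ℝ)) =>
      yM K M p.2.1 (zs s p.1)) := by
    have h3 := (continuous_yM M).measurable.comp h1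
    exact h3
  have h4 : Measurable (fun p : logSpace K × (ℝ × (InfinitePlace K → ℝ)) => om s p.2.2) := by
    have h5 := (measurable_om (K := K) s).comp
      ((measurable_snd.comp measurable_snd : Measurable
        (fun p : logSpace K × (ℝ × (InfinitePlace K → ℝ)) => p.2.2)))
    exact h5
  exact h2.prodMk h4

theorem measurable_PS' (L₁ L₂ M : FI K) (A : ℕ) (cp : InfinitePlace K → ℂ)
    (H : InfinitePlace K → ℝ) (s : Bool) :
    Measurable (fun p : logSpace K × (ℝ × (InfinitePlace K → ℝ)) =>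
      PS L₁ L₂ A cp H (yM K M p.2.1 (zs s p.1)) (om s p.2.2)) := by
  have h := (measurable_PS L₁ L₂ A cp H).comp (measurable_pos' M s)
  exact h

theorem measurable_DS' (M : FI K) (cp : InfinitePlace K → ℂ) (H : InfinitePlace K → ℝ)
    (p : InfinitePlace K → ℂ → ℂ) (hp : ∀ v, Measurable (p v)) (s : Bool) :
    Measurable (fun q : logSpace K × (ℝ × (InfinitePlace K → ℝ)) =>
      DS M cp H p (yM K M q.2.1 (zs s q.1)) (om s q.2.2)) := by
  have h := (measurable_DS M cp H p hp).comp (measurable_pos' M s)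
  exact h

end NF

end Pool.Agent.H16.DW
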